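import Pool.Agent.H70.TP.Main

set_option autoImplicit false

open MvPolynomial

namespace Pool.Agent.H70.TP

variable {N : ℕ}

lemma cg_nil (i : Fin N) : cg ([] : List (Fin N)) i = 0 := by simp [cg]

lemma Bl_zero_left {r : ℕ} (θ : V N r) (G : Fin N → FA N) : Bl θ (fun _ => 0) G = 0 := by
  simp [Bl]

lemma Bl_zero_right {r : ℕ} (θ : V N r) (F : Fin N → FA N) : Bl θ F (fun _ => 0) = 0 := by
  simp [Bl]

lemma mem_comm_of_tr {Q : FA N} (h : ∀ m, 0 < m → tr N m Q = 0) : Q ∈ comm (FA N) := by
  apply mem_comm_of_phi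
  · change constantCoeff (tr N 1 Q) = 0
    rw [h 1 one_pos, map_zero]
  · intro n w _
    change coeff (pth (n + 1) 0 w) (eps N (le_refl (n + 1)) (tr N (n + 1) Q)) = 0
    rw [h _ (Nat.succ_pos n), map_zero, coeff_zero]

lemma pderiv_tr_nil {m : ℕ} (p : Fin N × Fin m × Fin m) : pderiv p (tr N m (wd [])) = 0 := by
  obtain ⟨i, a, b⟩ := p
  rw [pderiv_tr_word, cg_nil, map_zero, Matrix.zero_apply]

/-- the uniform family of local operators. -/
lemma exists_theta (H : ∀ m : ℕ, Tens N m) (hinv : ∀ m, 0 < m → PermInv (H m))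
    (hex : ∀ f g : List (Fin N), ∃ P, Rel H f g P) :
    ∃ (M : ℕ → ℕ), ∀ f g : List (Fin N), Good H (fun r => thetaV (H (M r + 1)) r) f g := by
  choose M hM using fun r => exists_uniform H hinv hex r
  refine ⟨M, ?_⟩
  set Θ : ∀ r, V N r := fun r => thetaV (H (M r + 1)) r with hΘ
  have h22 : ∀ f g : List (Fin N), 2 ≤ f.length → 2 ≤ g.length → Good H Θ f g := by
    intro f g hf hg
    apply good_of_DW
    intro P hP
    constructor
    · rw [kap_of_bracket (H 1) f g hf (hP 1 one_pos), kap_L (Bl_mem Θ f g 0) (by omega)]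
    · intro n w hw
      by_cases hn : n + 1 < (f.length - 1) + (g.length - 1)
      · rw [propA_zero (le_refl (n + 1)) (H (n + 1)) (hinv _ (Nat.succ_pos n)) f g w hf hg hw hn
          (hP _ (Nat.succ_pos n)), Finset.sum_eq_zero]
        intro r _
        exact phi_L_ne w hw (Bl_mem Θ f g r) (by omega)
      · obtain ⟨r, hr⟩ : ∃ r, (f.length - 1) + (g.length - 1) + r = n + 1 :=
          ⟨n + 1 - ((f.length - 1) + (g.length - 1)), by omega⟩
        rw [hM r f g w n P hf hg hw hr hP, Finset.sum_eq_single r]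
        · intro r' _ hr'
          exact phi_L_ne w hw (Bl_mem Θ f g r') (by omega)
        · intro h2
          exact absurd (Finset.mem_range.2 (by omega)) h2
  have h12 : ∀ (i : Fin N) (g : List (Fin N)), 2 ≤ g.length → Good H Θ [i] g := by
    intro i g hg
    apply good_of_DW
    apply DW_left hex
    intro k hk
    exact h22 _ g (by rw [List.length_replicate]; exact hk) hg
  have hn1 : ∀ (f : List (Fin N)) (j : Fin N), f ≠ [] → Good H Θ f [j] := by
    intro f j hf
    apply good_of_DW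
    apply DW_right hex
    intro k hk
    rcases f with _ | ⟨i, _ | ⟨i', f⟩⟩
    · exact absurd rfl hf
    · exact h12 i _ (by rw [List.length_replicate]; exact hk)
    · exact h22 _ _ (by simp) (by rw [List.length_replicate]; exact hk)
  intro f g
  rcases f with _ | ⟨i, f⟩
  · intro P hP
    refine ⟨0, fun R _ => ?_⟩
    have h0 : PSum Θ R (cg []) (cg g) = 0 := by
      rw [PSum, Finset.sum_eq_zero]
      intro r _
      rw [show (cg ([] : List (Fin N))) = fun _ => 0 from funext cg_nil, Bl_zero_left]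
    rw [h0, sub_zero]
    apply mem_comm_of_tr
    intro m hm
    rw [← hP m hm, brT]
    simp [pderiv_tr_nil, -wd_nil]
  · rcases g with _ | ⟨j, g⟩
    · intro P hP
      refine ⟨0, fun R _ => ?_⟩
      have h0 : PSum Θ R (cg (i :: f)) (cg []) = 0 := by
        rw [PSum, Finset.sum_eq_zero]
        intro r _
        rw [show (cg ([] : List (Fin N))) = fun _ => 0 from funext cg_nil, Bl_zero_right]
      rw [h0, sub_zero]
      apply mem_comm_of_tr
      intro m hm
      rw [← hP m hm, brT]
      simp [pderiv_tr_nil, -wd_nil]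
    · rcases g with _ | ⟨j', g⟩
      · exact hn1 _ _ (by simp)
      · rcases f with _ | ⟨i', f⟩
        · exact h12 i _ (by simp)
        · exact h22 _ _ (by simp) (by simp)

/-- the family of evaluations is faithful. -/
lemma eq_zero_of_ev {Q : FA N} (h : ∀ m, 0 < m → ev N m Q = 0) : Q = 0 := by
  classical
  obtain ⟨s, c, hQ⟩ := exists_repr Q
  rw [hQ]
  apply Finset.sum_eq_zero
  intro y hy
  have h1 := h (y.length + 1) (Nat.succ_pos _)
  have h2 : coeff (pth (y.length + 1) 0 y) (eps N (le_refl (y.length + 1))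
      (ev N (y.length + 1) Q (cv (le_refl _) 0) (cv (le_refl _) y.length))) = 0 := by
    rw [h1, Matrix.zero_apply, map_zero, coeff_zero]
  rw [hQ, map_sum, Matrix.sum_apply, map_sum, coeff_sum, Finset.sum_eq_single y] at h2
  · rw [map_smul, Matrix.smul_apply, map_smul, coeff_smul, eps_word, zero_add, if_pos rfl,
      coeff_monomial, if_pos rfl, smul_eq_mul, mul_one] at h2
    rw [h2, zero_smul]
  · intro w _ hw
    rw [map_smul, Matrix.smul_apply, map_smul, coeff_smul, eps_word]
    split_ifs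
    · rw [coeff_monomial, if_neg, smul_zero]
      intro h3
      exact hw (pth_injective (y.length + 1) 0 y w (by omega) h3.symm).symm
    · rw [coeff_zero, smul_zero]
  · intro h3
    exact absurd hy h3

/-- the trace form of the gradient. -/
def IsTrGrad (P : FA N) (F : Fin N → FA N) : Prop :=
  ∀ (m : ℕ) (i : Fin N) (a b : Fin m), pderiv (i, a, b) (tr N m P) = ev N m (F i) b a

lemma IsTrGrad_repr {F : Fin N → FA N} {s : Finset (List (Fin N))} {c : List (Fin N) → ℂ}
    (hF : IsTrGrad (∑ w ∈ s, c w • wd w) F) : F = fun i => ∑ w ∈ s, c w • cg w i := by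
  funext i
  rw [← sub_eq_zero]
  apply eq_zero_of_ev
  intro m _
  refine Matrix.ext fun b a => ?_
  have h1 := hF m i a b
  rw [tr_sum, map_sum] at h1
  rw [map_sub, Matrix.sub_apply, ← h1, map_sum, Matrix.sum_apply, Matrix.zero_apply, sub_eq_zero]
  apply Finset.sum_congr rfl
  intro w _
  rw [tr_smul, Derivation.map_smul, pderiv_tr_word, map_smul, Matrix.smul_apply]

lemma brT_sum_left {m : ℕ} (h : Tens N m) {ι : Type*} (s : Finset ι) (a : ι → PR N m)
    (b : PR N m) : brT h (∑ x ∈ s, a x) b = ∑ x ∈ s, brT h (a x) b := by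
  simp only [brT, map_sum, Finset.sum_mul]
  rw [Finset.sum_comm (s := s)]
  apply Finset.sum_congr rfl
  intro p _
  rw [Finset.sum_comm]

lemma brT_sum_right {m : ℕ} (h : Tens N m) {ι : Type*} (s : Finset ι) (a : PR N m)
    (b : ι → PR N m) : brT h a (∑ x ∈ s, b x) = ∑ x ∈ s, brT h a (b x) := by
  simp only [brT, map_sum, Finset.sum_mul, Finset.mul_sum]
  rw [Finset.sum_comm (s := s)]
  apply Finset.sum_congr rfl
  intro p _
  rw [Finset.sum_comm]

lemma brT_smul_left {m : ℕ} (h : Tens N m) (c : ℂ) (a b : PR N m) :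
    brT h (c • a) b = c • brT h a b := by
  simp only [brT, Derivation.map_smul, smul_mul_assoc, Finset.smul_sum]

lemma brT_smul_right {m : ℕ} (h : Tens N m) (c : ℂ) (a b : PR N m) :
    brT h a (c • b) = c • brT h a b := by
  simp only [brT, Derivation.map_smul, smul_mul_assoc, mul_smul_comm, Finset.smul_sum]

lemma Bl_sum_left {r : ℕ} (θ : V N r) (s : Finset (List (Fin N))) (c : List (Fin N) → ℂ)
    (F : List (Fin N) → Fin N → FA N) (G : Fin N → FA N) :
    Bl θ (fun i => ∑ w ∈ s, c w • F w i) G = ∑ w ∈ s, c w • Bl θ (F w) G := by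
  simp only [Bl, Finset.sum_mul, smul_mul_assoc, Finset.smul_sum]
  rw [Finset.sum_comm (s := s)]
  apply Finset.sum_congr rfl
  intro i _
  rw [Finset.sum_comm]

lemma Bl_sum_right {r : ℕ} (θ : V N r) (s : Finset (List (Fin N))) (c : List (Fin N) → ℂ)
    (F : Fin N → FA N) (G : List (Fin N) → Fin N → FA N) :
    Bl θ F (fun i => ∑ w ∈ s, c w • G w i) = ∑ w ∈ s, c w • Bl θ F (G w) := by
  simp only [Bl, map_sum, map_smul, Finset.mul_sum, mul_smul_comm, Finset.smul_sum]
  rw [Finset.sum_comm (s := s)]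
  apply Finset.sum_congr rfl
  intro i _
  rw [Finset.sum_comm]

lemma PSum_repr (Θ : ∀ r, V N r) (R : ℕ) (s s' : Finset (List (Fin N)))
    (c c' : List (Fin N) → ℂ) :
    PSum Θ R (fun i => ∑ w ∈ s, c w • cg w i) (fun i => ∑ w ∈ s', c' w • cg w i) =
      ∑ w ∈ s, ∑ w' ∈ s', (c w * c' w') • PSum Θ R (cg w) (cg w') := by
  have h : ∀ r, Bl (Θ r) (fun i => ∑ w ∈ s, c w • cg w i) (fun i => ∑ w ∈ s', c' w • cg w i) =
      ∑ w ∈ s, ∑ w' ∈ s', (c w * c' w') • Bl (Θ r) (cg w) (cg w') := by
    intro r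
    rw [Bl_sum_left]
    apply Finset.sum_congr rfl
    intro w _
    rw [Bl_sum_right, Finset.smul_sum]
    apply Finset.sum_congr rfl
    intro w' _
    rw [smul_smul]
  simp only [PSum, h, Finset.smul_sum]
  rw [Finset.sum_comm]
  apply Finset.sum_congr rfl
  intro w _
  rw [Finset.sum_comm]

/-- the general statement, for arbitrary elements of the free algebra. -/
lemma general_of_good {H : ∀ m : ℕ, Tens N m}
    (hex : ∀ f g : List (Fin N), ∃ P, Rel H f g P) {Θ : ∀ r, V N r}
    (hgood : ∀ f g : List (Fin N), Good H Θ f g) {P1 P2 P3 : FA N} {F G : Fin N → FA N}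
    (hF : IsTrGrad P1 F) (hG : IsTrGrad P2 G)
    (h3 : ∀ m, 0 < m → brT (H m) (tr N m P1) (tr N m P2) = tr N m P3) :
    ∃ R0, ∀ R, R0 ≤ R → P3 - PSum Θ R F G ∈ comm (FA N) := by
  obtain ⟨s, c, rfl⟩ := exists_repr P1
  obtain ⟨s', c', rfl⟩ := exists_repr P2
  rw [IsTrGrad_repr hF, IsTrGrad_repr hG]
  choose P hP using hex
  choose R0 hR0 using fun f g => hgood f g (P f g) (hP f g)
  refine ⟨s.sup fun w => s'.sup fun w' => R0 w w', fun R hR => ?_⟩
  have hsplit : P3 - PSum Θ R (fun i => ∑ w ∈ s, c w • cg w i) (fun i => ∑ w ∈ s', c' w • cg w i) =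
      (P3 - ∑ w ∈ s, ∑ w' ∈ s', (c w * c' w') • P w w') +
      ∑ w ∈ s, ∑ w' ∈ s', (c w * c' w') • (P w w' - PSum Θ R (cg w) (cg w')) := by
    rw [PSum_repr]
    simp only [smul_sub, Finset.sum_sub_distrib]
    abel
  rw [hsplit]
  apply Submodule.add_mem
  · apply mem_comm_of_tr
    intro m hm
    rw [tr_sub, ← h3 m hm, sub_eq_zero]
    simp only [tr_sum, tr_smul]
    rw [brT_sum_left]
    apply Finset.sum_congr rfl
    intro w _
    rw [brT_sum_right]
    apply Finset.sum_congr rfl
    intro w' _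
    rw [brT_smul_left, brT_smul_right, hP w w' m hm, smul_smul]
  · apply Submodule.sum_mem
    intro w hw
    apply Submodule.sum_mem
    intro w' hw'
    apply Submodule.smul_mem
    apply hR0
    refine le_trans ?_ hR
    exact (Finset.le_sup (f := fun w' => R0 w w') hw').trans
      (Finset.le_sup (f := fun w => s'.sup fun w' => R0 w w') hw)

lemma thetaV_eq_zero {m r d : ℕ} [NeZero m] (h : Tens N m)
    (hd : ∀ p q, (h p q).totalDegree ≤ d) (hr : d < r) : thetaV h r = 0 := by
  funext i j zz σ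
  rw [thetaV, theta, Pi.zero_apply, Pi.zero_apply, Pi.zero_apply, Pi.zero_apply]
  apply coeff_eq_zero_of_totalDegree_lt
  refine lt_of_le_of_lt (hd _ _) ?_
  rw [← Finsupp.degree_apply, map_add, degree_pathMon, degree_pathMon, List.length_take,
    List.length_drop, List.length_ofFn]
  omega

end Pool.Agent.H70.TP
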