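import Pool.Agent.H70.TP.Assemble

set_option autoImplicit false

open MvPolynomial

namespace Pool.Agent.H70.TP

variable {N : ℕ}

/-- Simultaneous conjugation by `g ∈ GL_m` of the `N` generic matrices, as an automorphism of the
polynomial ring: `x_i ↦ g x_i g⁻¹`. -/
noncomputable def conj (N m : ℕ) (g : Matrix.GeneralLinearGroup (Fin m) ℂ) :
    PR N m →ₐ[ℂ] PR N m :=
  aeval fun p : Fin N × Fin m × Fin m =>
    (Matrix.map g.val (C : ℂ →+* PR N m) * gen N m p.1 *
      Matrix.map (g⁻¹).val (C : ℂ →+* PR N m)) p.2.1 p.2.2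

/-- A family of `ℂ`-bilinear skew-symmetric biderivations, one on the polynomial functions on
`N` generic `m × m` matrices for each `m ≥ 1`, which is invariant under simultaneous
conjugation and such that the bracket of two traces `tr P₁`, `tr P₂` is a trace `tr P₃` with `P₃`
independent of `m`. -/
structure IsTraceFamily (N : ℕ) (br : ∀ m : ℕ, PR N m →ₗ[ℂ] PR N m →ₗ[ℂ] PR N m) : Prop where
  skew : ∀ m, 0 < m → ∀ a b : PR N m, br m a b = - br m b a
  leibniz : ∀ m, 0 < m → ∀ a b c : PR N m, br m a (b * c) = br m a b * c + b * br m a c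
  conj_inv : ∀ m, 0 < m → ∀ (g : Matrix.GeneralLinearGroup (Fin m) ℂ) (a b : PR N m),
    br m (conj N m g a) (conj N m g b) = conj N m g (br m a b)
  trace : ∀ P₁ P₂ : FA N, ∃ P₃ : FA N, ∀ m, 0 < m →
    br m (tr N m P₁) (tr N m P₂) = tr N m P₃

/-- `P₃` represents the induced bracket of the classes of `P₁` and `P₂`. -/
def Represents (br : ∀ m : ℕ, PR N m →ₗ[ℂ] PR N m →ₗ[ℂ] PR N m) (P₁ P₂ P₃ : FA N) : Prop :=
  ∀ m, 0 < m → br m (tr N m P₁) (tr N m P₂) = tr N m P₃

/-- the structure polynomials of a bracket. -/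
noncomputable def tens (br : ∀ m : ℕ, PR N m →ₗ[ℂ] PR N m →ₗ[ℂ] PR N m) (m : ℕ) : Tens N m :=
  fun p q => br m (X p) (X q)

lemma derivation_sum_apply {m : ℕ} {ι : Type*} (s : Finset ι)
    (F : ι → Derivation ℂ (PR N m) (PR N m)) (b : PR N m) :
    (∑ q ∈ s, F q) b = ∑ q ∈ s, F q b := by
  classical
  induction s using Finset.induction_on with
  | empty => simp
  | insert a s ha ih => rw [Finset.sum_insert ha, Finset.sum_insert ha, Derivation.add_apply, ih]

lemma derivation_formula {m : ℕ} (d : PR N m →ₗ[ℂ] PR N m)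
    (hd : ∀ b c, d (b * c) = d b * c + b * d c) (b : PR N m) :
    d b = ∑ q, pderiv q b * d (X q) := by
  let D : Derivation ℂ (PR N m) (PR N m) := Derivation.mk' d (by
    intro b c
    rw [hd, smul_eq_mul, smul_eq_mul]; ring)
  have h : D = ∑ q, (d (X q)) • (pderiv q : Derivation ℂ (PR N m) (PR N m)) := by
    apply MvPolynomial.derivation_ext
    intro q
    rw [derivation_sum_apply, Finset.sum_eq_single q]
    · rw [Derivation.smul_apply, pderiv_X_self, smul_eq_mul, mul_one]; rfl
    · intro q' _ hq'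
      rw [Derivation.smul_apply, pderiv_X_of_ne hq'.symm, smul_zero]
    · simp
  have h2 := congrArg (fun D : Derivation ℂ (PR N m) (PR N m) => D b) h
  simp only [derivation_sum_apply, Derivation.smul_apply, smul_eq_mul] at h2
  change d b = _ at h2
  rw [h2]
  apply Finset.sum_congr rfl
  intro q _
  ring

lemma br_eq_brT {br : ∀ m : ℕ, PR N m →ₗ[ℂ] PR N m →ₗ[ℂ] PR N m} (h : IsTraceFamily N br)
    {m : ℕ} (hm : 0 < m) (a b : PR N m) : br m a b = brT (tens br m) a b := by
  have h1 : br m a b = ∑ q, pderiv q b * br m a (X q) :=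
    derivation_formula (br m a) (h.leibniz m hm a) b
  have h2 : ∀ q, br m a (X q) = ∑ p, pderiv p a * br m (X p) (X q) := by
    intro q
    have h3 := derivation_formula (br m (X q)) (h.leibniz m hm (X q)) a
    rw [h.skew m hm a (X q), h3, ← Finset.sum_neg_distrib]
    apply Finset.sum_congr rfl
    intro p _
    rw [h.skew m hm (X q) (X p), mul_neg, neg_neg]
  rw [h1, brT, Finset.sum_comm]
  apply Finset.sum_congr rfl
  intro q _
  rw [h2 q, Finset.mul_sum]
  apply Finset.sum_congr rfl
  intro p _
  rw [tens]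
  ring

/-- permutation matrices. -/
noncomputable def permGL {m : ℕ} (σ : Equiv.Perm (Fin m)) : Matrix.GeneralLinearGroup (Fin m) ℂ where
  val := Matrix.of fun a b => if σ a = b then 1 else 0
  inv := Matrix.of fun a b => if a = σ b then 1 else 0
  val_inv := by
    refine Matrix.ext fun a b => ?_
    rw [Matrix.mul_apply, Matrix.one_apply]
    simp [eq_comm]
  inv_val := by
    refine Matrix.ext fun a b => ?_
    rw [Matrix.mul_apply, Matrix.one_apply]
    simp only [Matrix.of_apply]
    rw [Finset.sum_eq_single (σ.symm a)]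
    · simp
    · intro c _ hc
      rw [if_neg, zero_mul]
      rintro rfl
      exact hc (by simp)
    · simp

lemma conj_permGL {m : ℕ} (σ : Equiv.Perm (Fin m)) (q : PR N m) :
    conj N m (permGL σ) q = rename (act σ) q := by
  have : conj N m (permGL σ) = rename (act σ) := by
    apply MvPolynomial.algHom_ext
    rintro ⟨i, a, b⟩
    rw [conj, aeval_X, rename_X, act]
    simp only
    rw [Matrix.mul_apply, Finset.sum_eq_single (σ b)]
    · rw [Matrix.mul_apply, Finset.sum_eq_single (σ a)]
      · have h1 : (Matrix.map (permGL σ).val (C : ℂ →+* PR N m)) a (σ a) = 1 := by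
          simp [permGL]
        have h2 : (Matrix.map (permGL σ)⁻¹.val (C : ℂ →+* PR N m)) (σ b) b = 1 := by
          change C ((permGL σ).inv (σ b) b) = 1
          simp [permGL]
        rw [h1, h2, one_mul, mul_one, gen, Matrix.of_apply]
      · intro c _ hc
        have h1 : (Matrix.map (permGL σ).val (C : ℂ →+* PR N m)) a c = 0 := by
          change C ((permGL σ).val a c) = 0
          simp [permGL, Ne.symm hc]
        rw [h1, zero_mul]
      · simp
    · intro c _ hc
      have h2 : (Matrix.map (permGL σ)⁻¹.val (C : ℂ →+* PR N m)) c b = 0 := by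
        change C ((permGL σ).inv c b) = 0
        simp [permGL, hc]
      rw [h2, mul_zero]
    · simp
  rw [this]

lemma permInv_tens {br : ∀ m : ℕ, PR N m →ₗ[ℂ] PR N m →ₗ[ℂ] PR N m} (h : IsTraceFamily N br)
    {m : ℕ} (hm : 0 < m) : PermInv (tens br m) := by
  intro σ p q
  have := h.conj_inv m hm (permGL σ) (X p) (X q)
  rw [conj_permGL, conj_permGL, conj_permGL, rename_X, rename_X] at this
  exact this

/-- the inclusion of the free algebra in the free algebra with one more generator
`δ = ι none`. -/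
noncomputable def incl (N : ℕ) : FA N →ₐ[ℂ] FreeAlgebra ℂ (Option (Fin N)) :=
  FreeAlgebra.lift ℂ fun i => FreeAlgebra.ι ℂ (some i)

/-- `G = grad_{x_k} P`: the derivative `D P` of `P` in the direction `x_k ↦ x_k + ε δ` (`D` is the
derivation with `D x_k = δ`, `D x_i = 0` for `i ≠ k`) is congruent to `δ G` modulo
commutators. -/
def IsGrad {N : ℕ} (k : Fin N) (P G : FA N) : Prop :=
  ∀ D : FA N →ₗ[ℂ] FreeAlgebra ℂ (Option (Fin N)),
    (∀ a b : FA N, D (a * b) = D a * incl N b + incl N a * D b) →
    (∀ i : Fin N, D (FreeAlgebra.ι ℂ i) = if i = k then FreeAlgebra.ι ℂ none else 0) →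
    D P - FreeAlgebra.ι ℂ none * incl N G ∈ comm (FreeAlgebra ℂ (Option (Fin N)))

/-- upper triangular lift. -/
noncomputable def triLift (k : Fin N) :
    FA N →ₐ[ℂ] Matrix (Fin 2) (Fin 2) (FreeAlgebra ℂ (Option (Fin N))) :=
  FreeAlgebra.lift ℂ fun i => !![FreeAlgebra.ι ℂ (some i),
    if i = k then FreeAlgebra.ι ℂ none else 0; 0, FreeAlgebra.ι ℂ (some i)]

lemma triLift_spec (k : Fin N) (P : FA N) :
    triLift k P 0 0 = incl N P ∧ triLift k P 1 0 = 0 ∧ triLift k P 1 1 = incl N P := by
  induction P using FreeAlgebra.induction with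
  | grade0 r =>
    rw [AlgHom.commutes, AlgHom.commutes, Matrix.algebraMap_eq_diagonal]
    simp
  | grade1 i => simp [triLift, incl]
  | mul a b ha hb =>
    rw [map_mul, map_mul, Matrix.mul_apply, Matrix.mul_apply, Matrix.mul_apply, Fin.sum_univ_two,
      Fin.sum_univ_two, Fin.sum_univ_two, ha.1, ha.2.1, ha.2.2, hb.1, hb.2.1, hb.2.2]
    simp
  | add a b ha hb =>
    rw [map_add, map_add, Matrix.add_apply, Matrix.add_apply, Matrix.add_apply, ha.1, ha.2.1,
      ha.2.2, hb.1, hb.2.1, hb.2.2]
    simp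

/-- the derivation of the definition of the gradient. -/
noncomputable def derD (k : Fin N) : FA N →ₗ[ℂ] FreeAlgebra ℂ (Option (Fin N)) where
  toFun P := triLift k P 0 1
  map_add' P Q := by rw [map_add, Matrix.add_apply]
  map_smul' c P := by rw [map_smul, Matrix.smul_apply]; rfl

lemma derD_mul (k : Fin N) (a b : FA N) :
    derD k (a * b) = derD k a * incl N b + incl N a * derD k b := by
  change triLift k (a * b) 0 1 = triLift k a 0 1 * incl N b + incl N a * triLift k b 0 1
  rw [map_mul, Matrix.mul_apply, Fin.sum_univ_two, (triLift_spec k a).1, (triLift_spec k b).2.2,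
    add_comm]

lemma derD_ι (k i : Fin N) :
    derD k (FreeAlgebra.ι ℂ i) = if i = k then FreeAlgebra.ι ℂ none else 0 := by
  change triLift k (FreeAlgebra.ι ℂ i) 0 1 = _
  simp [triLift]

/-- evaluation at the generic matrices, `δ ↦ E_ab`. -/
noncomputable def evO (N m : ℕ) (a b : Fin m) :
    FreeAlgebra ℂ (Option (Fin N)) →ₐ[ℂ] Matrix (Fin m) (Fin m) (PR N m) :=
  FreeAlgebra.lift ℂ fun o => o.elim (Matrix.single a b 1) (gen N m)

lemma evO_incl {m : ℕ} (a b : Fin m) (P : FA N) : evO N m a b (incl N P) = ev N m P := by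
  have : (evO N m a b).comp (incl N) = ev N m := by
    apply FreeAlgebra.hom_ext
    funext i
    simp [evO, incl, ev]
  exact congrArg (fun F : FA N →ₐ[ℂ] Matrix (Fin m) (Fin m) (PR N m) => F P) this

lemma evO_derD {m : ℕ} (k : Fin N) (a b : Fin m) (P : FA N) :
    evO N m a b (derD k P) = dM (k, a, b) (ev N m P) := by
  refine word_induction (p := fun P => evO N m a b (derD k P) = dM (k, a, b) (ev N m P))
    ?_ ?_ ?_ ?_ P
  · intro w
    induction w with
    | nil =>
      have h1 : derD k (wd ([] : List (Fin N))) = 0 := by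
        change triLift k (wd []) 0 1 = 0
        rw [wd_nil, map_one]; simp
      rw [h1, map_zero, ev_wd_nil, dM_one]
    | cons x w ih =>
      rw [wd_cons, derD_mul, map_add, map_mul, map_mul, ih, evO_incl, evO_incl, map_mul, dM_mul,
        derD_ι, ev_ι, dM_gen]
      congr 2
      split_ifs
      · simp [evO]
      · rw [map_zero]
  · rw [map_zero, map_zero, map_zero]
    refine Matrix.ext fun c d => ?_
    simp [dM]
  · intro P Q hP hQ
    rw [map_add, map_add, hP, hQ, map_add]
    refine Matrix.ext fun c d => ?_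
    simp [dM]
  · intro c P hP
    rw [map_smul, map_smul, hP, map_smul]
    refine Matrix.ext fun e d => ?_
    simp [dM]

lemma trace_evO_comm {m : ℕ} (a b : Fin m) {Q : FreeAlgebra ℂ (Option (Fin N))}
    (hQ : Q ∈ comm (FreeAlgebra ℂ (Option (Fin N)))) : Matrix.trace (evO N m a b Q) = 0 := by
  induction hQ using Submodule.span_induction with
  | mem x hx =>
    obtain ⟨c, d, rfl⟩ := hx
    rw [map_sub, map_mul, map_mul, Matrix.trace_sub, Matrix.trace_mul_comm, sub_self]
  | zero => rw [map_zero, Matrix.trace_zero]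
  | add x y _ _ hx hy => rw [map_add, Matrix.trace_add, hx, hy, add_zero]
  | smul c x _ hx => rw [map_smul, Matrix.trace_smul, hx, smul_zero]

lemma isTrGrad_of_isGrad {P : FA N} {F : Fin N → FA N} (h : ∀ k, IsGrad k P (F k)) :
    IsTrGrad P F := by
  intro m k a b
  have h1 := h k (derD k) (derD_mul k) (derD_ι k)
  have h2 := trace_evO_comm a b h1
  rw [map_sub, Matrix.trace_sub, sub_eq_zero, evO_derD, map_mul, evO_incl] at h2
  have h3 : pderiv (k, a, b) (tr N m P) = Matrix.trace (dM (k, a, b) (ev N m P)) := by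
    simp only [tr, Matrix.trace, map_sum, dM, Matrix.diag_apply, Matrix.map_apply]
  rw [h3, h2]
  have h4 : evO N m a b (FreeAlgebra.ι ℂ none) = Matrix.single a b 1 := by simp [evO]
  rw [h4, Matrix.trace_single_mul]
  simp

end Pool.Agent.H70.TP
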