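import Pool.Agent.H70.TP.Chain

set_option autoImplicit false

open MvPolynomial

namespace Pool.Agent.H70.TP

variable {N : ℕ}

lemma det_gen_ne_zero (m : ℕ) (i : Fin N) : (gen N m i).det ≠ 0 := by
  intro h
  let e : PR N m →+* ℂ := eval₂Hom (RingHom.id ℂ) fun p => if p.2.1 = p.2.2 then 1 else 0
  have h1 := congrArg e h
  rw [RingHom.map_det, map_zero] at h1
  have h2 : e.mapMatrix (gen N m i) = 1 := by
    refine Matrix.ext fun a b => ?_
    rw [RingHom.mapMatrix_apply, Matrix.map_apply, gen, Matrix.of_apply, Matrix.one_apply]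
    simp [e]
  rw [h2, Matrix.det_one] at h1
  exact one_ne_zero h1

/-- if `tr (x^k Z) = 0` for `1 ≤ k ≤ m` then `tr Z = 0` (Cayley–Hamilton). -/
lemma trace_eq_zero_of_pow {m : ℕ} (i : Fin N) (Z : Matrix (Fin m) (Fin m) (PR N m))
    (h : ∀ k, 1 ≤ k → k ≤ m → Matrix.trace (gen N m i ^ k * Z) = 0) : Matrix.trace Z = 0 := by
  have hch := Matrix.aeval_self_charpoly (gen N m i)
  rw [Polynomial.aeval_eq_sum_range, Matrix.charpoly_natDegree_eq_dim, Fintype.card_fin] at hch
  have h1 : Matrix.trace ((∑ k ∈ Finset.range (m + 1),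
      (gen N m i).charpoly.coeff k • gen N m i ^ k) * Z) = 0 := by
    rw [hch, zero_mul, Matrix.trace_zero]
  rw [Finset.sum_mul, Matrix.trace_sum, Finset.sum_range_succ', Finset.sum_eq_zero, zero_add,
    pow_zero, smul_mul_assoc, one_mul, Matrix.trace_smul, smul_eq_mul] at h1
  · rcases mul_eq_zero.1 h1 with h2 | h2
    · exfalso
      apply det_gen_ne_zero m i
      rw [Matrix.det_eq_sign_charpoly_coeff, h2, mul_zero]
    · exact h2
  · intro k hk
    rw [smul_mul_assoc, Matrix.trace_smul, h (k + 1) (by omega) (by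
      have := Finset.mem_range.1 hk; omega), smul_zero]

lemma ev_wd_replicate (m : ℕ) (i : Fin N) (k : ℕ) :
    ev N m (wd (List.replicate k i)) = gen N m i ^ k := by
  induction k with
  | zero => rw [List.replicate_zero, ev_wd_nil, pow_zero]
  | succ k ih => rw [List.replicate_succ, ev_wd_cons, ih, pow_succ']

lemma cg_replicate (i : Fin N) (k : ℕ) (i' : Fin N) :
    cg (List.replicate k i) i' = if i' = i then (k : ℂ) • wd (List.replicate (k - 1) i) else 0 := by
  rw [cg, List.length_replicate]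
  split_ifs with h
  · subst h
    rw [Finset.sum_congr rfl (g := fun _ => wd (List.replicate (k - 1) i'))]
    · rw [Finset.sum_const, Finset.card_range, Nat.cast_smul_eq_nsmul]
    · intro s hs
      have hs' := Finset.mem_range.1 hs
      rw [List.getElem?_replicate, if_pos hs', if_pos rfl, List.drop_replicate,
        List.take_replicate, List.replicate_append_replicate]
      congr 2
      omega
  · apply Finset.sum_eq_zero
    intro s hs
    rw [List.getElem?_replicate, if_pos (Finset.mem_range.1 hs), if_neg]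
    simpa using Ne.symm h

lemma trace_ev_smul_wd_replicate_mul {m : ℕ} (i : Fin N) (k : ℕ)
    (Z : Matrix (Fin m) (Fin m) (PR N m)) :
    ∑ a, ∑ b, ev N m (cg (List.replicate k i) i) b a * Z a b =
      (k : ℂ) • Matrix.trace (gen N m i ^ (k - 1) * Z) := by
  rw [cg_replicate, if_pos rfl, map_smul, ev_wd_replicate, Matrix.trace, Finset.sum_comm,
    Finset.smul_sum]
  apply Finset.sum_congr rfl
  intro b _
  rw [Matrix.diag_apply, Matrix.mul_apply, Finset.smul_sum]
  apply Finset.sum_congr rfl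
  intro a _
  rw [Matrix.smul_apply, smul_mul_assoc]

/-- the gradient of the bracket in the first argument. -/
lemma brT_left {m : ℕ} (h : Tens N m) (f : List (Fin N)) (b : PR N m) :
    brT h (tr N m (wd f)) b =
      ∑ i, ∑ a, ∑ c, ev N m (cg f i) c a * ∑ q, pderiv q b * h (i, a, c) q := by
  simp only [brT, Fintype.sum_prod_type, pderiv_tr_word, Finset.mul_sum]

lemma brT_right {m : ℕ} (h : Tens N m) (a : PR N m) (g : List (Fin N)) :
    brT h a (tr N m (wd g)) =
      ∑ j, ∑ c, ∑ d, ev N m (cg g j) d c * ∑ p, pderiv p a * h p (j, c, d) := by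
  simp only [brT]
  rw [Finset.sum_comm]
  simp only [Fintype.sum_prod_type (γ := PR N m), pderiv_tr_word, Finset.mul_sum]
  refine Finset.sum_congr rfl fun j _ => Finset.sum_congr rfl fun c _ =>
    Finset.sum_congr rfl fun d _ => ?_
  refine Finset.sum_congr rfl fun i _ => Finset.sum_congr rfl fun a' _ =>
    Finset.sum_congr rfl fun b _ => ?_
  ring

lemma tr_Bl_left {m r : ℕ} (θ : V N r) (F G : Fin N → FA N) :
    tr N m (Bl θ F G) = ∑ i, ∑ a, ∑ c, ev N m (F i) c a * ev N m (∑ j, Op θ i j (G j)) a c := by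
  rw [Bl, tr_sum]
  apply Finset.sum_congr rfl
  intro i _
  rw [← Finset.mul_sum, tr, map_mul, Matrix.trace, Finset.sum_comm]
  apply Finset.sum_congr rfl
  intro b _
  rw [Matrix.diag_apply, Matrix.mul_apply]

/-- the transposed operators. -/
noncomputable def OpT {r : ℕ} (θ : V N r) (i j : Fin N) (F : FA N) : FA N :=
  ∑ zz : Fin r → Fin N, ∑ σ : Fin (r + 1), θ i j zz σ •
      (wd ((List.ofFn zz).drop σ) * (F * wd ((List.ofFn zz).take σ)))

lemma tr_Op_comm {m r : ℕ} (θ : V N r) (i j : Fin N) (F G : FA N) :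
    tr N m (F * Op θ i j G) = tr N m (G * OpT θ i j F) := by
  rw [Op_apply, OpT, Finset.mul_sum, Finset.mul_sum, tr_sum, tr_sum]
  apply Finset.sum_congr rfl
  intro zz _
  rw [Finset.mul_sum, Finset.mul_sum, tr_sum, tr_sum]
  apply Finset.sum_congr rfl
  intro σ _
  rw [mul_smul_comm, mul_smul_comm, tr_smul, tr_smul]
  congr 1
  rw [← mul_assoc, tr_mul_comm]
  simp only [mul_assoc]

lemma tr_Bl_right {m r : ℕ} (θ : V N r) (F G : Fin N → FA N) :
    tr N m (Bl θ F G) = ∑ j, ∑ a, ∑ c, ev N m (G j) c a * ev N m (∑ i, OpT θ i j (F i)) a c := by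
  rw [Bl, Finset.sum_comm, tr_sum]
  apply Finset.sum_congr rfl
  intro j _
  have : tr N m (∑ i, F i * Op θ i j (G j)) = tr N m (G j * ∑ i, OpT θ i j (F i)) := by
    rw [tr_sum, Finset.mul_sum, tr_sum]
    exact Finset.sum_congr rfl fun i _ => tr_Op_comm θ i j _ _
  rw [this, tr, map_mul, Matrix.trace, Finset.sum_comm]
  apply Finset.sum_congr rfl
  intro b _
  rw [Matrix.diag_apply, Matrix.mul_apply]

end Pool.Agent.H70.TP
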