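import Pool.Agent.H70.TP.PropA

set_option autoImplicit false

open MvPolynomial

namespace Pool.Agent.H70.TP

variable {N : ℕ}

lemma Op_add {r : ℕ} (θ θ' : V N r) (i j : Fin N) : Op (θ + θ') i j = Op θ i j + Op θ' i j := by
  simp only [Op, Pi.add_apply, add_smul, Finset.sum_add_distrib]

lemma Op_smul {r : ℕ} (c : ℂ) (θ : V N r) (i j : Fin N) : Op (c • θ) i j = c • Op θ i j := by
  simp only [Op, Pi.smul_apply, smul_eq_mul, mul_smul, Finset.smul_sum]

lemma Op_zero {r : ℕ} (i j : Fin N) : Op (0 : V N r) i j = 0 := by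
  simp only [Op, Pi.zero_apply, zero_smul, Finset.sum_const_zero]

lemma Bl_add {r : ℕ} (θ θ' : V N r) (F G : Fin N → FA N) :
    Bl (θ + θ') F G = Bl θ F G + Bl θ' F G := by
  simp only [Bl, Op_add, LinearMap.add_apply, mul_add, Finset.sum_add_distrib]

lemma Bl_smul {r : ℕ} (c : ℂ) (θ : V N r) (F G : Fin N → FA N) :
    Bl (c • θ) F G = c • Bl θ F G := by
  simp only [Bl, Op_smul, LinearMap.smul_apply, mul_smul_comm, Finset.smul_sum]

lemma Bl_zero {r : ℕ} (F G : Fin N → FA N) : Bl (0 : V N r) F G = 0 := by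
  simp only [Bl, Op_zero, LinearMap.zero_apply, mul_zero, Finset.sum_const_zero]

lemma Bl_sub {r : ℕ} (θ θ' : V N r) (F G : Fin N → FA N) :
    Bl (θ - θ') F G = Bl θ F G - Bl θ' F G := by
  rw [sub_eq_add_neg, Bl_add, ← neg_one_smul ℂ θ', Bl_smul, neg_one_smul, sub_eq_add_neg]

/-- operators giving the zero bracket on words of length between `2` and `d`. -/
def K (N r d : ℕ) : Submodule ℂ (V N r) where
  carrier := {θ | ∀ f g : List (Fin N), 2 ≤ f.length → f.length ≤ d → 2 ≤ g.length →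
    g.length ≤ d → Bl θ (cg f) (cg g) ∈ comm (FA N)}
  add_mem' := by
    intro a b ha hb f g h1 h2 h3 h4
    rw [Bl_add]
    exact Submodule.add_mem _ (ha f g h1 h2 h3 h4) (hb f g h1 h2 h3 h4)
  zero_mem' := by
    intro f g _ _ _ _
    rw [Bl_zero]
    exact Submodule.zero_mem _
  smul_mem' := by
    intro c a ha f g h1 h2 h3 h4
    rw [Bl_smul]
    exact Submodule.smul_mem _ _ (ha f g h1 h2 h3 h4)

lemma K_antitone (r : ℕ) {d d' : ℕ} (h : d ≤ d') : K N r d' ≤ K N r d :=
  fun _ hθ f g h1 h2 h3 h4 => hθ f g h1 (h2.trans h) h3 (h4.trans h)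

lemma K_stabilizes (N r : ℕ) : ∃ d0, ∀ d, d0 ≤ d → K N r d0 = K N r d := by
  let F : ℕ →o (Submodule ℂ (V N r))ᵒᵈ :=
    ⟨fun d => OrderDual.toDual (K N r d), fun d d' h => K_antitone r h⟩
  obtain ⟨n, hn⟩ := IsArtinian.monotone_stabilizes F
  exact ⟨n, fun d hd => hn d hd⟩

/-- `P` represents the bracket of the traces of the words `f` and `g`. -/
def Rel (H : ∀ m : ℕ, Tens N m) (f g : List (Fin N)) (P : FA N) : Prop :=
  ∀ m, 0 < m → brT (H m) (tr N m (wd f)) (tr N m (wd g)) = tr N m P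

lemma exists_uniform (H : ∀ m : ℕ, Tens N m) (hinv : ∀ m, 0 < m → PermInv (H m))
    (hex : ∀ f g : List (Fin N), ∃ P, Rel H f g P) (r : ℕ) :
    ∃ M : ℕ, ∀ (f g w : List (Fin N)) (n : ℕ) (P : FA N), 2 ≤ f.length → 2 ≤ g.length →
      w.length = n + 1 → (f.length - 1) + (g.length - 1) + r = n + 1 → Rel H f g P →
      phi (n + 1) w P = phi (n + 1) w (Bl (thetaV (H (M + 1)) r) (cg f) (cg g)) := by
  obtain ⟨d0, hd0⟩ := K_stabilizes N r
  refine ⟨2 * d0 + r, ?_⟩
  intro f g w n P hf hg hw hn hP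
  set m := max (2 * d0 + r) n with hm
  have hA := propA (show n + 1 ≤ m + 1 by omega) (H (m + 1)) (hinv _ (by omega)) f g w hf hg hw r
    hn (hP (m + 1) (by omega))
  rw [hA]
  -- the difference of the two families lies in `K`
  have hdiff : thetaV (H (m + 1)) r - thetaV (H (2 * d0 + r + 1)) r ∈ K N r d0 := by
    intro f' g' hf1 hf2 hg1 hg2
    rw [Bl_sub]
    have hL1 := Bl_mem_L (thetaV (H (m + 1)) r) (cg_mem_L f') (cg_mem_L g')
    have hL2 := Bl_mem_L (thetaV (H (2 * d0 + r + 1)) r) (cg_mem_L f') (cg_mem_L g')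
    obtain ⟨P', hP'⟩ := hex f' g'
    apply mem_comm_of_phi
    · rw [map_sub, kap_L hL1 (by omega), kap_L hL2 (by omega), sub_zero]
    · intro n' w' hw'
      by_cases hn' : (f'.length - 1) + (g'.length - 1) + r = n' + 1
      · have h1 := propA (show n' + 1 ≤ m + 1 by omega) (H (m + 1)) (hinv _ (by omega)) f' g' w'
          hf1 hg1 hw' r hn' (hP' (m + 1) (by omega))
        have h2 := propA (show n' + 1 ≤ 2 * d0 + r + 1 by omega) (H (2 * d0 + r + 1))
          (hinv _ (by omega)) f' g' w' hf1 hg1 hw' r hn' (hP' _ (by omega))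
        rw [map_sub, ← h1, ← h2, sub_self]
      · rw [map_sub, phi_L_ne w' hw' hL1 (by omega), phi_L_ne w' hw' hL2 (by omega), sub_zero]
  have hall : thetaV (H (m + 1)) r - thetaV (H (2 * d0 + r + 1)) r ∈
      K N r (max d0 (max f.length g.length)) := by
    rw [← hd0 _ (le_max_left _ _)]
    exact hdiff
  have := hall f g hf (by omega) hg (by omega)
  rw [Bl_sub] at this
  have h3 := phi_comm (n := n + 1) w this
  rw [map_sub, sub_eq_zero] at h3
  exact h3

end Pool.Agent.H70.TP
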