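import Pool.Agent.H70.TP.Local

set_option autoImplicit false

open MvPolynomial

namespace Pool.Agent.H70.TP

variable {N n m : ℕ} [NeZero n] [NeZero m]

/-- contraction of a tensor with two words on the cycle. -/
noncomputable def contr (hnm : n ≤ m) (h : Tens N m) (i j : Fin N) (y z : List (Fin N)) :
    MvPolynomial (Fin N × Fin n) ℂ :=
  ∑ e1 ∈ Finset.range n, ∑ e2 ∈ Finset.range n,
    monomial (pth n e1 y) 1 * (monomial (pth n e2 z) 1 *
      eps N hnm (h (i, cv hnm (e1 + y.length), cv hnm e1) (j, cv hnm (e2 + z.length), cv hnm e2)))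

lemma coeff_contr_aux (hnm : n ≤ m) (h : Tens N m) (hinv : PermInv h) (i j : Fin N)
    (y z w : List (Fin N)) (hy : y ≠ []) (hz : z ≠ []) (hw : w.length = n) :
    coeff (pth n 0 w) (contr hnm h i j y z) =
      ∑ e1 ∈ Finset.range n, ∑ σ ∈ Finset.range n,
        if y.length + σ + z.length ≤ n ∧ (w.rotate e1).take y.length = y ∧
        ((w.rotate e1).drop (y.length + σ)).take z.length = z
      then theta h i j (((w.rotate e1).drop y.length).take σ)
        ((w.rotate e1).drop (y.length + σ + z.length)) else 0 := by
  rw [contr, coeff_sum]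
  apply Finset.sum_congr rfl
  intro e1 he1
  rw [coeff_sum, pth_rotate w hw e1 (Finset.mem_range.1 he1).le]
  rw [sum_period _ _ (e1 + y.length)]
  · apply Finset.sum_congr rfl
    intro σ hσ
    exact key_term hnm h hinv i j y z (w.rotate e1) hy hz e1 σ (by rw [List.length_rotate, hw])
      (Finset.mem_range.1 hσ)
  · intro e
    rw [pth_add_self, cv_add_self, show e + n + z.length = (e + z.length) + n by ring,
      cv_add_self]

lemma coeff_contr_zero (hnm : n ≤ m) (h : Tens N m) (hinv : PermInv h) (i j : Fin N)
    (y z w : List (Fin N)) (hy : y ≠ []) (hz : z ≠ []) (hw : w.length = n)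
    (hlt : n < y.length + z.length) :
    coeff (pth n 0 w) (contr hnm h i j y z) = 0 := by
  rw [coeff_contr_aux hnm h hinv i j y z w hy hz hw]
  apply Finset.sum_eq_zero
  intro e1 _
  apply Finset.sum_eq_zero
  intro σ _
  rw [if_neg]
  rintro ⟨h1, -⟩
  omega

omit [NeZero m] in
lemma coeff_eps_tr_word (hnm : n ≤ m) (y w : List (Fin N)) (hy : y.length = n)
    (hw : w.length = n) :
    coeff (pth n 0 w) (eps N hnm (tr N m (wd y))) =
      ∑ e ∈ Finset.range n, if y = w.rotate e then 1 else 0 := by
  have hy0 : y ≠ [] := by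
    rintro rfl
    exact NeZero.ne n hy.symm
  rw [eps_tr_word hnm y hy0, coeff_sum]
  apply Finset.sum_congr rfl
  intro e he
  rw [hy, if_pos (cv_add_self hnm e).symm, coeff_monomial,
    pth_rotate w hw e (Finset.mem_range.1 he).le]
  by_cases hh : y = w.rotate e
  · rw [if_pos hh, if_pos (by rw [hh])]
  · rw [if_neg hh, if_neg]
    intro h1
    exact hh (pth_injective n e _ _ hy.le h1)

omit [NeZero m] in
lemma coeff_eps_tr_word_ne (hnm : n ≤ m) (y w : List (Fin N)) (hy : y.length ≠ n)
    (hw : w.length = n) :
    coeff (pth n 0 w) (eps N hnm (tr N m (wd y))) = 0 := by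
  classical
  by_cases hy0 : y = []
  · subst hy0
    rw [tr, ev_wd_nil, Matrix.trace_one, map_natCast, ← map_natCast C, coeff_C, if_neg]
    intro h1
    have := congrArg Finsupp.degree h1
    rw [degree_pth, map_zero, hw] at this
    exact NeZero.ne n this.symm
  · rw [eps_tr_word hnm y hy0, coeff_sum]
    apply Finset.sum_eq_zero
    intro e _
    split_ifs
    · rw [coeff_monomial, if_neg]
      intro h1
      have := congrArg Finsupp.degree h1
      rw [degree_pth, degree_pth, hw] at this
      exact hy this
    · exact coeff_zero _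

lemma coeff_contr (hnm : n ≤ m) (h : Tens N m) (hinv : PermInv h) (i j : Fin N)
    (y z w : List (Fin N)) (hy : y ≠ []) (hz : z ≠ []) (hw : w.length = n) (r : ℕ)
    (hr : y.length + z.length + r = n) :
    coeff (pth n 0 w) (contr hnm h i j y z) =
      coeff (pth n 0 w) (eps N hnm (tr N m (wd y * Op (thetaV h r) i j (wd z)))) := by
  have hy' : 0 < y.length := List.length_pos_iff.2 hy
  rw [coeff_contr_aux hnm h hinv i j y z w hy hz hw, Op_apply]
  have h1 : ∀ e1 ∈ Finset.range n, (∑ σ ∈ Finset.range n,
        if y.length + σ + z.length ≤ n ∧ (w.rotate e1).take y.length = y ∧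
        ((w.rotate e1).drop (y.length + σ)).take z.length = z
      then theta h i j (((w.rotate e1).drop y.length).take σ)
        ((w.rotate e1).drop (y.length + σ + z.length)) else 0) = _ := fun e1 _ =>
    sum_match h i j y z (w.rotate e1) r hr (by rw [List.length_rotate, hw]) (by omega)
  rw [Finset.sum_congr rfl h1, Finset.sum_comm]
  simp only [Finset.mul_sum, tr, map_sum, Matrix.trace_sum, coeff_sum]
  apply Finset.sum_congr rfl
  intro zz _
  rw [Finset.sum_comm]
  apply Finset.sum_congr rfl
  intro σ _
  rw [mul_smul_comm, map_smul, Matrix.trace_smul, map_smul, coeff_smul, ← wd_append,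
    ← wd_append, ← wd_append, smul_eq_mul, ← Finset.mul_sum]
  congr 1
  symm
  apply coeff_eps_tr_word hnm _ w _ hw
  rw [List.length_append, List.length_append, List.length_append, List.length_take,
    List.length_drop, List.length_ofFn]
  omega

end Pool.Agent.H70.TP
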