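import Pool.Agent.H70.TP.Words

set_option autoImplicit false

open MvPolynomial

namespace Pool.Agent.H70.TP

variable {N n m : ℕ} [NeZero n]

/-- the vertices of the cycle of length `n` inside `Fin m`. -/
def cv (h : n ≤ m) (s : ℕ) : Fin m := Fin.castLE h (Fin.ofNat n s)

lemma cv_val (h : n ≤ m) (s : ℕ) : (cv h s).val = s % n := rfl

lemma cv_lt (h : n ≤ m) (s : ℕ) : (cv h s).val < n := Nat.mod_lt _ (NeZero.pos n)

lemma cv_eq_iff (h : n ≤ m) (s t : ℕ) : cv h s = cv h t ↔ Fin.ofNat n s = Fin.ofNat n t :=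
  (Fin.castLE_injective h).eq_iff

lemma cv_add_self (h : n ≤ m) (s : ℕ) : cv h (s + n) = cv h s := by
  rw [cv_eq_iff]; exact ofNat_add_self n s

/-- the edges of the cycle. -/
def edge (N : ℕ) (h : n ≤ m) (p : Fin N × Fin n) : Fin N × Fin m × Fin m :=
  (p.1, cv h p.2.val, cv h (p.2.val + 1))

lemma edge_ofNat (h : n ≤ m) (l : Fin N) (s : ℕ) :
    edge N h (l, Fin.ofNat n s) = (l, cv h s, cv h (s + 1)) := by
  have h1 : cv h (Fin.ofNat n s).val = cv h s := by
    rw [cv_eq_iff]; exact Fin.ext (by simp [Fin.ofNat])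
  have h2 : cv h ((Fin.ofNat n s).val + 1) = cv h (s + 1) := by
    rw [cv_eq_iff]; exact Fin.ext (by simp [Fin.ofNat])
  simp only [edge, h1, h2]

lemma edge_injective (N : ℕ) (h : n ≤ m) : Function.Injective (edge N h) := by
  rintro ⟨l, e⟩ ⟨l', e'⟩ hh
  simp only [edge, Prod.mk.injEq] at hh
  obtain ⟨h1, h2, -⟩ := hh
  have := congrArg Fin.val h2
  rw [cv_val, cv_val, Nat.mod_eq_of_lt e.2, Nat.mod_eq_of_lt e'.2] at this
  exact Prod.ext h1 (Fin.ext this)

/-- evaluation at the cyclic matrices with independent coefficients. -/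
noncomputable def eps (N : ℕ) (h : n ≤ m) : PR N m →ₐ[ℂ] MvPolynomial (Fin N × Fin n) ℂ :=
  killCompl (edge_injective N h)

lemma coeff_eps (h : n ≤ m) (κ : Fin N × Fin n →₀ ℕ) (q : PR N m) :
    coeff κ (eps N h q) = coeff (κ.mapDomain (edge N h)) q := by
  classical
  induction q using MvPolynomial.induction_on' with
  | monomial u a =>
    by_cases hu : (u.support : Set _) ⊆ Set.range (edge N h)
    · have : ∃ u', u = Finsupp.mapDomain (edge N h) u' :=
        ⟨u.comapDomain (edge N h) (edge_injective N h).injOn,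
          (Finsupp.mapDomain_comapDomain _ (edge_injective N h) _ hu).symm⟩
      obtain ⟨u', rfl⟩ := this
      rw [eps, killCompl_monomial_mapDomain, coeff_monomial, coeff_monomial]
      simp only [(Finsupp.mapDomain_injective (edge_injective N h)).eq_iff]
    · rw [eps, killCompl_monomial_eq_zero_of_not_subset _ _ hu, coeff_zero, coeff_monomial,
        if_neg]
      rintro rfl
      apply hu
      intro x hx
      have := Finsupp.mapDomain_support hx
      simp only [Finset.mem_image] at this
      obtain ⟨y, -, rfl⟩ := this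
      exact ⟨y, rfl⟩
  | add p q hp hq => rw [map_add, coeff_add, coeff_add, hp, hq]

lemma eps_X_edge (h : n ≤ m) (p : Fin N × Fin n) : eps N h (X (edge N h p)) = X p := by
  have := killCompl_rename_app (edge_injective N h) (X p : MvPolynomial (Fin N × Fin n) ℂ)
  rwa [rename_X] at this

lemma eps_X_not (h : n ≤ m) (p : Fin N × Fin m × Fin m) (hp : p ∉ Set.range (edge N h)) :
    eps N h (X p) = 0 := by
  classical
  rw [eps, killCompl, aeval_X, dif_neg hp]

lemma eps_X_row (h : n ≤ m) (l : Fin N) (s : ℕ) (b : Fin m) :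
    eps N h (X (l, cv h s, b)) = if b = cv h (s + 1) then X (l, Fin.ofNat n s) else 0 := by
  split_ifs with hb
  · rw [hb, ← edge_ofNat, eps_X_edge]
  · apply eps_X_not
    rintro ⟨⟨l', e⟩, he⟩
    simp only [edge, Prod.mk.injEq] at he
    obtain ⟨-, h2, h3⟩ := he
    apply hb
    rw [← h3, cv_eq_iff, ofNat_eq_iff]
    rw [cv_eq_iff, ofNat_eq_iff] at h2
    exact Nat.ModEq.add_right 1 h2

lemma eps_X_ge (h : n ≤ m) (l : Fin N) (a b : Fin m) (ha : n ≤ a.val) :
    eps N h (X (l, a, b)) = 0 := by
  apply eps_X_not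
  rintro ⟨⟨l', e⟩, he⟩
  simp only [edge, Prod.mk.injEq] at he
  have := cv_lt h e.val
  rw [he.2.1] at this
  omega

lemma eps_word (h : n ≤ m) (y : List (Fin N)) (s : ℕ) (b : Fin m) :
    eps N h (ev N m (wd y) (cv h s) b) =
      if b = cv h (s + y.length) then monomial (pth n s y) 1 else 0 := by
  induction y generalizing s with
  | nil =>
    rw [ev_wd_nil, Matrix.one_apply]
    simp only [List.length_nil, add_zero, pth_nil, eq_comm (a := b)]
    split_ifs <;> simp
  | cons x y ih =>
    rw [ev_wd_cons, Matrix.mul_apply, map_sum]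
    rw [Finset.sum_eq_single (cv h (s + 1))]
    · rw [map_mul, gen, Matrix.of_apply, eps_X_row, if_pos rfl, ih, List.length_cons,
        show s + 1 + y.length = s + (y.length + 1) by ring, pth_cons]
      split_ifs
      · rw [X, monomial_mul, one_mul]
      · rw [mul_zero]
    · intro c _ hc
      rw [map_mul, gen, Matrix.of_apply, eps_X_row, if_neg hc, zero_mul]
    · simp

lemma eps_word_ge (h : n ≤ m) (y : List (Fin N)) (hy : y ≠ []) (a b : Fin m) (ha : n ≤ a.val) :
    eps N h (ev N m (wd y) a b) = 0 := by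
  cases y with
  | nil => exact absurd rfl hy
  | cons x y =>
    rw [ev_wd_cons, Matrix.mul_apply, map_sum]
    apply Finset.sum_eq_zero
    intro c _
    rw [map_mul, gen, Matrix.of_apply, eps_X_ge h _ _ _ ha, zero_mul]

/-- Summation over the rows of `Fin m` of a function vanishing outside the cycle. -/
lemma sum_row {M : Type*} [AddCommMonoid M] (h : n ≤ m) (F : Fin m → M)
    (hF : ∀ a : Fin m, n ≤ a.val → F a = 0) :
    ∑ a, F a = ∑ e ∈ Finset.range n, F (cv h e) := by
  classical
  rw [← Finset.sum_subset (Finset.subset_univ (Finset.univ.filter fun a : Fin m => a.val < n))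
    (fun a _ ha => hF a (by simpa using ha))]
  symm
  apply Finset.sum_bij (fun e _ => cv h e)
  · intro e _
    simp [cv_lt]
  · intro e he e' he' hh
    have := congrArg Fin.val hh
    rwa [cv_val, cv_val, Nat.mod_eq_of_lt (Finset.mem_range.1 he),
      Nat.mod_eq_of_lt (Finset.mem_range.1 he')] at this
  · intro a ha
    simp only [Finset.mem_filter, Finset.mem_univ, true_and] at ha
    exact ⟨a.val, Finset.mem_range.2 ha, Fin.ext (by rw [cv_val, Nat.mod_eq_of_lt ha])⟩
  · intro e _; rfl

lemma eps_tr_word (h : n ≤ m) (y : List (Fin N)) (hy : y ≠ []) :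
    eps N h (tr N m (wd y)) =
      ∑ e ∈ Finset.range n, if cv h e = cv h (e + y.length) then monomial (pth n e y) 1 else 0 := by
  rw [tr, Matrix.trace, map_sum, sum_row h]
  · apply Finset.sum_congr rfl
    intro e _
    rw [Matrix.diag_apply, eps_word]
  · intro a ha
    rw [Matrix.diag_apply, eps_word_ge h y hy a a ha]

/-- monomials along a path of vertices. -/
noncomputable def pathMon {N m : ℕ} : (ℕ → Fin m) → List (Fin N) → (Fin N × Fin m × Fin m →₀ ℕ)
  | _, [] => 0
  | φ, x :: y => Finsupp.single (x, φ 0, φ 1) 1 + pathMon (fun t => φ (t + 1)) y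

lemma pathMon_cons {N m : ℕ} (φ : ℕ → Fin m) (x : Fin N) (y : List (Fin N)) :
    pathMon φ (x :: y) = Finsupp.single (x, φ 0, φ 1) 1 + pathMon (fun t => φ (t + 1)) y := rfl

lemma pathMon_congr {N m : ℕ} (φ ψ : ℕ → Fin m) (y : List (Fin N))
    (h : ∀ t, t ≤ y.length → φ t = ψ t) : pathMon φ y = pathMon ψ y := by
  induction y generalizing φ ψ with
  | nil => rfl
  | cons x y ih =>
    rw [pathMon_cons, pathMon_cons, h 0 (by simp), h 1 (by simp),
      ih _ (fun t => ψ (t + 1)) (fun t ht => h (t + 1) (by simpa using ht))]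

lemma mapDomain_pth (h : n ≤ m) (s : ℕ) (y : List (Fin N)) :
    (pth n s y).mapDomain (edge N h) = pathMon (fun t => cv h (s + t)) y := by
  induction y generalizing s with
  | nil => rfl
  | cons x y ih =>
    rw [pth_cons, pathMon_cons, Finsupp.mapDomain_add, Finsupp.mapDomain_single, edge_ofNat, ih]
    simp only [add_zero, add_assoc, add_comm 1]

lemma mapDomain_pathMon {N m : ℕ} (φ : ℕ → Fin m) (σ : Fin m → Fin m) (y : List (Fin N)) :
    (pathMon φ y).mapDomain (fun p : Fin N × Fin m × Fin m => (p.1, σ p.2.1, σ p.2.2)) =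
      pathMon (fun t => σ (φ t)) y := by
  induction y generalizing φ with
  | nil => rfl
  | cons x y ih =>
    rw [pathMon_cons, pathMon_cons, Finsupp.mapDomain_add, Finsupp.mapDomain_single, ih]

lemma degree_pathMon {N m : ℕ} (φ : ℕ → Fin m) (y : List (Fin N)) :
    (pathMon φ y).degree = y.length := by
  induction y generalizing φ with
  | nil => simp [pathMon]
  | cons x y ih => rw [pathMon_cons, map_add, ih, Finsupp.degree_single, List.length_cons]; omega

end Pool.Agent.H70.TP
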