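import Pool.Agent.H70.TP.Contr

set_option autoImplicit false

open MvPolynomial

namespace Pool.Agent.H70.TP

variable {N m : ℕ}

/-- entrywise derivation of matrices. -/
noncomputable def dM (p : Fin N × Fin m × Fin m) (M : Matrix (Fin m) (Fin m) (PR N m)) :
    Matrix (Fin m) (Fin m) (PR N m) := M.map (pderiv p)

lemma dM_mul (p : Fin N × Fin m × Fin m) (M M' : Matrix (Fin m) (Fin m) (PR N m)) :
    dM p (M * M') = dM p M * M' + M * dM p M' := by
  refine Matrix.ext fun a b => ?_
  simp only [dM, Matrix.map_apply, Matrix.mul_apply, Matrix.add_apply, map_sum,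
    Derivation.leibniz, smul_eq_mul, ← Finset.sum_add_distrib]
  apply Finset.sum_congr rfl
  intro c _
  ring

lemma dM_one (p : Fin N × Fin m × Fin m) : dM p 1 = 0 := by
  refine Matrix.ext fun a b => ?_
  simp only [dM, Matrix.map_apply, Matrix.one_apply, Matrix.zero_apply]
  split_ifs <;> simp

lemma dM_gen (i j : Fin N) (a b : Fin m) :
    dM (i, a, b) (gen N m j) = if j = i then Matrix.single a b 1 else 0 := by
  refine Matrix.ext fun c d => ?_
  rw [dM, Matrix.map_apply, gen, Matrix.of_apply, pderiv_X, Pi.single_apply]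
  split_ifs with h1 h2 h2
  · simp only [Prod.mk.injEq] at h1
    rw [h1.2.1, h1.2.2]; simp
  · exact absurd (Prod.ext_iff.1 h1).1 h2
  · rw [Matrix.single_apply, if_neg]
    rintro ⟨rfl, rfl⟩
    exact h1 (by rw [h2])
  · rfl

lemma dM_word (i : Fin N) (a b : Fin m) (f : List (Fin N)) :
    dM (i, a, b) (ev N m (wd f)) = ∑ s ∈ Finset.range f.length,
      if f[s]? = some i then ev N m (wd (f.take s)) * Matrix.single a b 1 *
        ev N m (wd (f.drop (s + 1))) else 0 := by
  induction f with
  | nil => rw [ev_wd_nil, dM_one]; simp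
  | cons x f ih =>
    rw [ev_wd_cons, dM_mul, ih, List.length_cons, Finset.sum_range_succ', add_comm, dM_gen]
    congr 1
    · rw [Finset.mul_sum]
      apply Finset.sum_congr rfl
      intro s _
      simp only [List.getElem?_cons_succ, List.take_succ_cons, List.drop_succ_cons]
      split_ifs
      · rw [ev_wd_cons]; simp only [Matrix.mul_assoc]
      · rw [mul_zero]
    · simp only [List.getElem?_cons_zero, Option.some.injEq, List.take_zero, ev_wd_nil, one_mul,
        zero_add, List.drop_succ_cons, List.drop_zero]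
      split_ifs
      · rfl
      · rw [zero_mul]

lemma pderiv_tr_word (i : Fin N) (a b : Fin m) (f : List (Fin N)) :
    pderiv (i, a, b) (tr N m (wd f)) = ev N m (cg f i) b a := by
  have h1 : pderiv (i, a, b) (tr N m (wd f)) = Matrix.trace (dM (i, a, b) (ev N m (wd f))) := by
    simp only [tr, Matrix.trace, map_sum, dM, Matrix.diag_apply, Matrix.map_apply]
  rw [h1, dM_word, Matrix.trace_sum, cg, map_sum, Matrix.sum_apply]
  apply Finset.sum_congr rfl
  intro s _
  split_ifs
  · rw [Matrix.trace_mul_comm, ← Matrix.mul_assoc, wd_append, map_mul, Matrix.trace_mul_comm,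
      Matrix.trace_single_mul]
    simp
  · rw [Matrix.trace_zero, map_zero, Matrix.zero_apply]

/-- the biderivation with a given tensor of structure polynomials. -/
noncomputable def brT (h : Tens N m) (a b : PR N m) : PR N m :=
  ∑ p, ∑ q, pderiv p a * (pderiv q b * h p q)

/-- contraction of a word with a tensor over the cycle. -/
lemma eps_sum_pair {n : ℕ} [NeZero n] (hnm : n ≤ m) (y : List (Fin N)) (hy : y ≠ [])
    (Z : Fin m → Fin m → MvPolynomial (Fin N × Fin n) ℂ) :
    ∑ a, ∑ b, eps N hnm (ev N m (wd y) b a) * Z a b =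
      ∑ e ∈ Finset.range n, monomial (pth n e y) 1 * Z (cv hnm (e + y.length)) (cv hnm e) := by
  rw [Finset.sum_comm, sum_row hnm]
  · apply Finset.sum_congr rfl
    intro e _
    rw [Finset.sum_eq_single (cv hnm (e + y.length))]
    · rw [eps_word, if_pos rfl]
    · intro a _ ha
      rw [eps_word, if_neg ha, zero_mul]
    · simp
  · intro b hb
    apply Finset.sum_eq_zero
    intro a _
    rw [eps_word_ge hnm y hy b a hb, zero_mul]

/-- the span of the words of length `k`. -/
def L (N k : ℕ) : Submodule ℂ (FA N) := Submodule.span ℂ (wd '' {w | w.length = k})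

lemma wd_mem_L {w : List (Fin N)} {k : ℕ} (h : w.length = k) : wd w ∈ L N k :=
  Submodule.subset_span ⟨w, h, rfl⟩

lemma cg_mem_L (f : List (Fin N)) (i : Fin N) : cg f i ∈ L N (f.length - 1) := by
  rw [cg]
  apply Submodule.sum_mem
  intro s hs
  split_ifs
  · apply wd_mem_L
    rw [List.length_append, List.length_drop, List.length_take]
    have := Finset.mem_range.1 hs
    omega
  · exact Submodule.zero_mem _

lemma mul_mem_L {F G : FA N} {k l : ℕ} (hF : F ∈ L N k) (hG : G ∈ L N l) :
    F * G ∈ L N (k + l) := by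
  induction hF using Submodule.span_induction with
  | mem x hx =>
    obtain ⟨u, hu, rfl⟩ := hx
    induction hG using Submodule.span_induction with
    | mem y hy =>
      obtain ⟨v, hv, rfl⟩ := hy
      rw [← wd_append]
      apply wd_mem_L
      rw [List.length_append, hu, hv]
    | zero => simp
    | add x y _ _ hx hy => rw [mul_add]; exact Submodule.add_mem _ hx hy
    | smul c x _ hx => rw [mul_smul_comm]; exact Submodule.smul_mem _ _ hx
  | zero => simp
  | add x y _ _ hx hy => rw [add_mul]; exact Submodule.add_mem _ hx hy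
  | smul c x _ hx => rw [smul_mul_assoc]; exact Submodule.smul_mem _ _ hx

lemma Op_mem_L {r : ℕ} (θ : V N r) (i j : Fin N) {G : FA N} {l : ℕ} (hG : G ∈ L N l) :
    Op θ i j G ∈ L N (l + r) := by
  rw [Op_apply]
  apply Submodule.sum_mem
  intro zz _
  apply Submodule.sum_mem
  intro σ _
  apply Submodule.smul_mem
  have h1 : wd ((List.ofFn zz).take σ) ∈ L N σ := by
    apply wd_mem_L; rw [List.length_take, List.length_ofFn]; omega
  have h2 : wd ((List.ofFn zz).drop σ) ∈ L N (r - σ) := by
    apply wd_mem_L; rw [List.length_drop, List.length_ofFn]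
  have := mul_mem_L h1 (mul_mem_L hG h2)
  rwa [show (σ : ℕ) + (l + (r - σ)) = l + r by omega] at this

lemma Bl_mem_L {r : ℕ} (θ : V N r) {F G : Fin N → FA N} {k l : ℕ} (hF : ∀ i, F i ∈ L N k)
    (hG : ∀ i, G i ∈ L N l) : Bl θ F G ∈ L N (k + (l + r)) :=
  Submodule.sum_mem _ fun i _ => Submodule.sum_mem _ fun j _ =>
    mul_mem_L (hF i) (Op_mem_L θ i j (hG j))

/-- contraction of two elements of the free algebra with a tensor. -/
noncomputable def contrE {n : ℕ} [NeZero n] (hnm : n ≤ m) (h : Tens N m) (i j : Fin N)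
    (F G : FA N) : MvPolynomial (Fin N × Fin n) ℂ :=
  ∑ a, ∑ b, eps N hnm (ev N m F b a) * ∑ c, ∑ d, eps N hnm (ev N m G d c) *
    eps N hnm (h (i, a, b) (j, c, d))

lemma contrE_add_left {n : ℕ} [NeZero n] (hnm : n ≤ m) (h : Tens N m) (i j : Fin N)
    (F F' G : FA N) : contrE hnm h i j (F + F') G = contrE hnm h i j F G + contrE hnm h i j F' G := by
  simp only [contrE, map_add, Matrix.add_apply, add_mul, Finset.sum_add_distrib]

lemma contrE_add_right {n : ℕ} [NeZero n] (hnm : n ≤ m) (h : Tens N m) (i j : Fin N)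
    (F G G' : FA N) : contrE hnm h i j F (G + G') = contrE hnm h i j F G + contrE hnm h i j F G' := by
  simp only [contrE, map_add, Matrix.add_apply, add_mul, mul_add, Finset.sum_add_distrib]

lemma contrE_smul_left {n : ℕ} [NeZero n] (hnm : n ≤ m) (h : Tens N m) (i j : Fin N)
    (c : ℂ) (F G : FA N) : contrE hnm h i j (c • F) G = c • contrE hnm h i j F G := by
  simp only [contrE, map_smul, Matrix.smul_apply, smul_mul_assoc, Finset.smul_sum]

lemma contrE_smul_right {n : ℕ} [NeZero n] (hnm : n ≤ m) (h : Tens N m) (i j : Fin N)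
    (c : ℂ) (F G : FA N) : contrE hnm h i j F (c • G) = c • contrE hnm h i j F G := by
  simp only [contrE, map_smul, Matrix.smul_apply, smul_mul_assoc, ← Finset.smul_sum,
    mul_smul_comm]

lemma contrE_word {n : ℕ} [NeZero n] [NeZero m] (hnm : n ≤ m) (h : Tens N m) (i j : Fin N)
    (y z : List (Fin N)) (hy : y ≠ []) (hz : z ≠ []) :
    contrE hnm h i j (wd y) (wd z) = contr hnm h i j y z := by
  rw [contrE, eps_sum_pair hnm y hy]
  simp only [eps_sum_pair hnm z hz]
  rw [contr]
  apply Finset.sum_congr rfl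
  intro e1 _
  rw [Finset.mul_sum]

lemma eps_brT {n : ℕ} [NeZero n] (hnm : n ≤ m) (h : Tens N m) (f g : List (Fin N)) :
    eps N hnm (brT h (tr N m (wd f)) (tr N m (wd g))) =
      ∑ i, ∑ j, contrE hnm h i j (cg f i) (cg g j) := by
  simp only [brT, Fintype.sum_prod_type, pderiv_tr_word, map_sum, map_mul, contrE,
    Finset.mul_sum]
  apply Finset.sum_congr rfl
  intro i _
  conv_rhs => rw [Finset.sum_comm]
  apply Finset.sum_congr rfl
  intro a _
  conv_rhs => rw [Finset.sum_comm]

end Pool.Agent.H70.TP
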