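import Pool.Agent.H70.TP.Bracket

set_option autoImplicit false

open MvPolynomial

namespace Pool.Agent.H70.TP

variable {N : ℕ}

/-- Local operators which are homogeneous of degree `r`: the span of the operators
`X ↦ u X v` with words `u`, `v` of total length `r`. -/
def localOps (N r : ℕ) : Submodule ℂ (Module.End ℂ (FA N)) :=
  Submodule.span ℂ {T | ∃ u v : List (Fin N), u.length + v.length = r ∧
    T = LinearMap.mulLeft ℂ (wd u) ∘ₗ LinearMap.mulRight ℂ (wd v)}

/-- The algebra of local operators, generated by the left and right multiplications by the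
generators. -/
def LocalAlg (N : ℕ) : Subalgebra ℂ (Module.End ℂ (FA N)) :=
  Algebra.adjoin ℂ
    (Set.range (fun i : Fin N =>
      (LinearMap.mulLeft ℂ (FreeAlgebra.ι ℂ i) : Module.End ℂ (FA N))) ∪
    Set.range (fun i : Fin N =>
      (LinearMap.mulRight ℂ (FreeAlgebra.ι ℂ i) : Module.End ℂ (FA N))))

/-- The induced bracket is given by a matrix of local operators. -/
def InducedLocal (br : ∀ m : ℕ, PR N m →ₗ[ℂ] PR N m →ₗ[ℂ] PR N m) : Prop :=
  ∃ Θ : Fin N → Fin N → Module.End ℂ (FA N), (∀ i j, Θ i j ∈ LocalAlg N) ∧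
    ∀ (P₁ P₂ P₃ : FA N) (f g : Fin N → FA N), (∀ k, IsGrad k P₁ (f k)) →
      (∀ k, IsGrad k P₂ (g k)) → Represents br P₁ P₂ P₃ →
      P₃ - ∑ i, ∑ j, f i * Θ i j (g j) ∈ comm (FA N)

/-- noncommutative polynomials of degree at most `n`. -/
def degLE (N n : ℕ) : Submodule ℂ (FA N) := Submodule.span ℂ (wd '' {w | w.length ≤ n})

lemma wd_mem_degLE {w : List (Fin N)} {n : ℕ} (h : w.length ≤ n) : wd w ∈ degLE N n :=
  Submodule.subset_span ⟨w, h, rfl⟩

lemma degLE_mono {n n' : ℕ} (h : n ≤ n') : degLE N n ≤ degLE N n' :=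
  Submodule.span_mono (Set.image_mono fun _ hw => le_trans hw h)

lemma L_le_degLE (n : ℕ) : L N n ≤ degLE N n :=
  Submodule.span_mono (Set.image_mono fun _ hw => le_of_eq hw)

lemma mul_mem_degLE {F G : FA N} {k l : ℕ} (hF : F ∈ degLE N k) (hG : G ∈ degLE N l) :
    F * G ∈ degLE N (k + l) := by
  induction hF using Submodule.span_induction with
  | mem x hx =>
    obtain ⟨u, hu, rfl⟩ := hx
    induction hG using Submodule.span_induction with
    | mem y hy =>
      obtain ⟨v, hv, rfl⟩ := hy
      rw [← wd_append]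
      apply wd_mem_degLE
      rw [List.length_append]
      exact add_le_add hu hv
    | zero => simp
    | add x y _ _ hx hy => rw [mul_add]; exact Submodule.add_mem _ hx hy
    | smul c x _ hx => rw [mul_smul_comm]; exact Submodule.smul_mem _ _ hx
  | zero => simp
  | add x y _ _ hx hy => rw [add_mul]; exact Submodule.add_mem _ hx hy
  | smul c x _ hx => rw [smul_mul_assoc]; exact Submodule.smul_mem _ _ hx

lemma phi_degLE {n k : ℕ} [NeZero n] (w : List (Fin N)) (hw : w.length = n) {Q : FA N}
    (hQ : Q ∈ degLE N k) (hk : k < n) : phi n w Q = 0 := by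
  induction hQ using Submodule.span_induction with
  | mem x hx =>
    obtain ⟨y, hy, rfl⟩ := hx
    have hy' : y.length ≤ k := hy
    exact phi_word_ne w y hw (by omega)
  | zero => exact map_zero _
  | add x y _ _ hx hy => rw [map_add, hx, hy, add_zero]
  | smul c x _ hx => rw [map_smul, hx, smul_zero]

lemma exists_degree_of_mem {T : Module.End ℂ (FA N)} (hT : T ∈ LocalAlg N) :
    ∃ d : ℕ, ∀ n, ∀ P ∈ degLE N n, T P ∈ degLE N (n + d) := by
  induction hT using Algebra.adjoin_induction with
  | mem x hx =>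
    rcases hx with ⟨i, rfl⟩ | ⟨i, rfl⟩
    · refine ⟨1, fun n P hP => ?_⟩
      rw [LinearMap.mulLeft_apply, ← wd_singleton, add_comm]
      exact mul_mem_degLE (wd_mem_degLE (by simp)) hP
    · refine ⟨1, fun n P hP => ?_⟩
      rw [LinearMap.mulRight_apply, ← wd_singleton]
      exact mul_mem_degLE hP (wd_mem_degLE (by simp))
  | algebraMap r =>
    refine ⟨0, fun n P hP => ?_⟩
    rw [Module.algebraMap_end_apply]
    exact Submodule.smul_mem _ _ hP
  | add x y _ _ hx hy =>
    obtain ⟨d, hd⟩ := hx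
    obtain ⟨d', hd'⟩ := hy
    refine ⟨max d d', fun n P hP => ?_⟩
    rw [LinearMap.add_apply]
    exact Submodule.add_mem _ (degLE_mono (by omega) (hd n P hP))
      (degLE_mono (by omega) (hd' n P hP))
  | mul x y _ _ hx hy =>
    obtain ⟨d, hd⟩ := hx
    obtain ⟨d', hd'⟩ := hy
    refine ⟨d' + d, fun n P hP => ?_⟩
    rw [Module.End.mul_apply, ← add_assoc]
    exact hd _ _ (hd' n P hP)

lemma mulLeft_wd_mem (u : List (Fin N)) :
    (LinearMap.mulLeft ℂ (wd u) : Module.End ℂ (FA N)) ∈ LocalAlg N := by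
  induction u with
  | nil =>
    rw [wd_nil, LinearMap.mulLeft_one]
    exact (LocalAlg N).one_mem
  | cons x u ih =>
    rw [wd_cons, LinearMap.mulLeft_mul]
    exact (LocalAlg N).mul_mem (Algebra.subset_adjoin (Or.inl ⟨x, rfl⟩)) ih

lemma mulRight_wd_mem (u : List (Fin N)) :
    (LinearMap.mulRight ℂ (wd u) : Module.End ℂ (FA N)) ∈ LocalAlg N := by
  induction u with
  | nil =>
    rw [wd_nil, LinearMap.mulRight_one]
    exact (LocalAlg N).one_mem
  | cons x u ih =>
    rw [wd_cons, LinearMap.mulRight_mul]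
    exact (LocalAlg N).mul_mem ih (Algebra.subset_adjoin (Or.inr ⟨x, rfl⟩))

lemma Op_mem_LocalAlg {r : ℕ} (θ : V N r) (i j : Fin N) : Op θ i j ∈ LocalAlg N := by
  rw [Op]
  refine Subalgebra.sum_mem _ fun zz _ => Subalgebra.sum_mem _ fun σ _ => ?_
  exact Subalgebra.smul_mem _ ((LocalAlg N).mul_mem (mulLeft_wd_mem _) (mulRight_wd_mem _)) _

lemma Op_mem_localOps {r : ℕ} (θ : V N r) (i j : Fin N) : Op θ i j ∈ localOps N r := by
  rw [Op]
  refine Submodule.sum_mem _ fun zz _ => Submodule.sum_mem _ fun σ _ => ?_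
  refine Submodule.smul_mem _ _ (Submodule.subset_span ⟨_, _, ?_, rfl⟩)
  rw [List.length_take, List.length_drop, List.length_ofFn]
  omega

/-- the explicit cyclic gradients are gradients. -/
lemma isGrad_cg (w : List (Fin N)) (k : Fin N) : IsGrad k (wd w) (cg w k) := by
  intro D hmul hι
  have h1 : D 1 = 0 := by
    have := hmul 1 1
    rw [map_one (incl N), mul_one, mul_one, one_mul] at this
    exact left_eq_add.1 this
  have h2 : D (wd w) = ∑ s ∈ Finset.range w.length, if w[s]? = some k then
      incl N (wd (w.take s)) * (FreeAlgebra.ι ℂ none * incl N (wd (w.drop (s + 1)))) else 0 := by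
    induction w with
    | nil => rw [wd_nil, h1]; simp
    | cons x w ih =>
      rw [wd_cons, hmul, ih, List.length_cons, Finset.sum_range_succ', add_comm, hι]
      congr 1
      · rw [Finset.mul_sum]
        apply Finset.sum_congr rfl
        intro s _
        simp only [List.getElem?_cons_succ, List.take_succ_cons, List.drop_succ_cons]
        split_ifs
        · rw [wd_cons, map_mul, mul_assoc]
        · rw [mul_zero]
      · simp only [List.getElem?_cons_zero, Option.some.injEq, List.take_zero, wd_nil, map_one,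
          one_mul, zero_add, List.drop_succ_cons, List.drop_zero]
        split_ifs
        · rfl
        · rw [zero_mul]
  rw [h2, cg, map_sum, Finset.mul_sum, ← Finset.sum_sub_distrib]
  apply Submodule.sum_mem
  intro s _
  split_ifs
  · rw [wd_append, map_mul]
    exact Submodule.subset_span ⟨incl N (wd (w.take s)),
      FreeAlgebra.ι ℂ none * incl N (wd (w.drop (s + 1))), by simp only [mul_assoc]⟩
  · simp

lemma rel_of_represents {br : ∀ m : ℕ, PR N m →ₗ[ℂ] PR N m →ₗ[ℂ] PR N m}
    (h : IsTraceFamily N br) {P₁ P₂ P₃ : FA N} (hP : Represents br P₁ P₂ P₃) :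
    ∀ m, 0 < m → brT (tens br m) (tr N m P₁) (tr N m P₂) = tr N m P₃ := by
  intro m hm
  rw [← br_eq_brT h hm]
  exact hP m hm

lemma represents_of_rel {br : ∀ m : ℕ, PR N m →ₗ[ℂ] PR N m →ₗ[ℂ] PR N m}
    (h : IsTraceFamily N br) {P₁ P₂ P₃ : FA N}
    (hP : ∀ m, 0 < m → brT (tens br m) (tr N m P₁) (tr N m P₂) = tr N m P₃) :
    Represents br P₁ P₂ P₃ := by
  intro m hm
  rw [br_eq_brT h hm]
  exact hP m hm

lemma hex_of_family {br : ∀ m : ℕ, PR N m →ₗ[ℂ] PR N m →ₗ[ℂ] PR N m}
    (h : IsTraceFamily N br) (f g : List (Fin N)) : ∃ P, Rel (tens br) f g P := by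
  obtain ⟨P, hP⟩ := h.trace (wd f) (wd g)
  exact ⟨P, rel_of_represents h hP⟩

lemma PSum_eq (Θ : ∀ r, V N r) (R : ℕ) (F G : Fin N → FA N) :
    PSum Θ R F G = ∑ r ∈ Finset.range R, ∑ i, ∑ j, F i * Op (Θ r) i j (G j) := rfl

/-- If `Θ r` gives the zero bracket on words for `r ≥ R`, then the bracket is local. -/
lemma inducedLocal_of_bound {br : ∀ m : ℕ, PR N m →ₗ[ℂ] PR N m →ₗ[ℂ] PR N m}
    (h : IsTraceFamily N br) {Θ : ∀ r, V N r} (hgood : ∀ f g, Good (tens br) Θ f g) (R : ℕ)
    (hR : ∀ r, R ≤ r → ∀ f g : List (Fin N), Bl (Θ r) (cg f) (cg g) ∈ comm (FA N)) :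
    InducedLocal br := by
  refine ⟨fun i j => ∑ r ∈ Finset.range R, Op (Θ r) i j, fun i j =>
    Subalgebra.sum_mem _ fun r _ => Op_mem_LocalAlg _ i j, ?_⟩
  intro P₁ P₂ P₃ f g hf hg hP
  have hF := isTrGrad_of_isGrad hf
  have hG := isTrGrad_of_isGrad hg
  obtain ⟨R0, hR0⟩ := general_of_good (hex_of_family h) hgood hF hG (rel_of_represents h hP)
  have h1 := hR0 (max R0 R) (le_max_left _ _)
  have h2 : (∑ i, ∑ j, f i * (∑ r ∈ Finset.range R, Op (Θ r) i j) (g j)) = PSum Θ R f g := by
    simp only [PSum, Bl, LinearMap.sum_apply, Finset.mul_sum]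
    rw [Finset.sum_comm (s := Finset.range R)]
    apply Finset.sum_congr rfl
    intro i _
    rw [Finset.sum_comm]
  rw [h2]
  have h3 : PSum Θ (max R0 R) f g - PSum Θ R f g ∈ comm (FA N) := by
    obtain ⟨s, c, rfl⟩ := exists_repr P₁
    obtain ⟨s', c', rfl⟩ := exists_repr P₂
    rw [IsTrGrad_repr hF, IsTrGrad_repr hG, PSum_repr, PSum_repr, ← Finset.sum_sub_distrib]
    apply Submodule.sum_mem
    intro w _
    rw [← Finset.sum_sub_distrib]
    apply Submodule.sum_mem
    intro w' _
    rw [← smul_sub]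
    apply Submodule.smul_mem
    rw [PSum, PSum, ← Finset.sum_range_add_sum_Ico _ (le_max_right R0 R), add_sub_cancel_left]
    apply Submodule.sum_mem
    intro r hr
    exact hR r (Finset.mem_Ico.1 hr).1 w w'
  have h4 := Submodule.add_mem _ h1 h3
  rwa [sub_add_sub_cancel] at h4

/-- The induced bracket is a locally finite sum of homogeneous local operators. -/
theorem expansion (N : ℕ) (br : ∀ m : ℕ, PR N m →ₗ[ℂ] PR N m →ₗ[ℂ] PR N m)
    (h : IsTraceFamily N br) :
    ∃ Θ : ℕ → Fin N → Fin N → Module.End ℂ (FA N), (∀ r i j, Θ r i j ∈ localOps N r) ∧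
      ∀ (P₁ P₂ P₃ : FA N) (f g : Fin N → FA N), (∀ k, IsGrad k P₁ (f k)) →
        (∀ k, IsGrad k P₂ (g k)) → Represents br P₁ P₂ P₃ →
        ∃ R₀ : ℕ, ∀ R, R₀ ≤ R →
          P₃ - ∑ r ∈ Finset.range R, ∑ i, ∑ j, f i * Θ r i j (g j) ∈ comm (FA N) := by
  have hinv : ∀ m, 0 < m → PermInv (tens br m) := fun m hm => permInv_tens h hm
  obtain ⟨M, hM⟩ := exists_theta (tens br) hinv (hex_of_family h)
  refine ⟨fun r i j => Op (thetaV (tens br (M r + 1)) r) i j,
    fun r i j => Op_mem_localOps _ i j, ?_⟩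
  intro P₁ P₂ P₃ f g hf hg hP
  exact general_of_good (hex_of_family h) hM (isTrGrad_of_isGrad hf) (isTrGrad_of_isGrad hg)
    (rel_of_represents h hP)

/-- the degree of a polynomial detects the degree of the words with nonzero functionals. -/
lemma phi_eq_zero_of_totalDegree {n D : ℕ} [NeZero n] (w : List (Fin N)) (hw : w.length = n)
    {P : FA N} (hP : (tr N n P).totalDegree ≤ D) (hD : D < n) : phi n w P = 0 := by
  change coeff (pth n 0 w) (eps N (le_refl n) (tr N n P)) = 0
  rw [coeff_eps, mapDomain_pth]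
  apply coeff_eq_zero_of_totalDegree_lt
  refine lt_of_le_of_lt hP ?_
  rw [← Finsupp.degree_apply, degree_pathMon, hw]
  exact hD

lemma totalDegree_X_le (N m : ℕ) (i : Fin N) (a b : Fin m) :
    (gen N m i a b).totalDegree ≤ 1 := by
  rw [gen, Matrix.of_apply, totalDegree_X]

lemma totalDegree_ev_wd (m : ℕ) (w : List (Fin N)) (a b : Fin m) :
    (ev N m (wd w) a b).totalDegree ≤ w.length := by
  induction w generalizing a with
  | nil =>
    rw [ev_wd_nil, Matrix.one_apply]
    split_ifs <;> simp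
  | cons x w ih =>
    rw [ev_wd_cons, Matrix.mul_apply, List.length_cons]
    refine (totalDegree_finsetSum _ _).trans (Finset.sup_le fun c _ => ?_)
    refine (totalDegree_mul _ _).trans ?_
    have := totalDegree_X_le N m x a c
    have := ih c
    omega

lemma totalDegree_tr_wd (m : ℕ) (w : List (Fin N)) : (tr N m (wd w)).totalDegree ≤ w.length := by
  rw [tr, Matrix.trace]
  refine (totalDegree_finsetSum _ _).trans (Finset.sup_le fun c _ => ?_)
  exact totalDegree_ev_wd m w c c

lemma totalDegree_tr_of_degLE {m k : ℕ} {P : FA N} (hP : P ∈ degLE N k) :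
    (tr N m P).totalDegree ≤ k := by
  induction hP using Submodule.span_induction with
  | mem x hx =>
    obtain ⟨w, hw, rfl⟩ := hx
    exact (totalDegree_tr_wd m w).trans hw
  | zero => rw [tr_zero, totalDegree_zero]; exact Nat.zero_le _
  | add x y _ _ hx hy =>
    rw [tr_add]
    exact (totalDegree_add _ _).trans (max_le hx hy)
  | smul c x _ hx =>
    rw [tr_smul]
    exact (totalDegree_smul_le _ _).trans hx

/-- Locality of the induced bracket is equivalent to a bound on the degrees of the brackets of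
traces of words which is uniform in the size `m` of the matrices. -/
theorem criterion (N : ℕ) (br : ∀ m : ℕ, PR N m →ₗ[ℂ] PR N m →ₗ[ℂ] PR N m)
    (h : IsTraceFamily N br) :
    (∃ d : ℕ, ∀ m, 0 < m → ∀ w₁ w₂ : List (Fin N),
      (br m (tr N m (wd w₁)) (tr N m (wd w₂))).totalDegree ≤ w₁.length + w₂.length + d) ↔
    InducedLocal br := by
  constructor
  · rintro ⟨d, hd⟩
    have hinv : ∀ m, 0 < m → PermInv (tens br m) := fun m hm => permInv_tens h hm
    obtain ⟨M, hM⟩ := exists_theta (tens br) hinv (hex_of_family h)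
    set Θ : ∀ r, V N r := fun r => thetaV (tens br (M r + 1)) r with hΘ
    apply inducedLocal_of_bound h hM (d + 3)
    intro r hr f g
    obtain ⟨P, hP⟩ := h.trace (wd f) (wd g)
    by_cases hf : f = []
    · rw [hf, show (cg ([] : List (Fin N))) = fun _ => 0 from funext cg_nil, Bl_zero_left]
      exact Submodule.zero_mem _
    by_cases hg : g = []
    · rw [hg, show (cg ([] : List (Fin N))) = fun _ => 0 from funext cg_nil, Bl_zero_right]
      exact Submodule.zero_mem _
    have hf' := List.length_pos_iff.2 hf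
    have hg' := List.length_pos_iff.2 hg
    obtain ⟨R0, hR0⟩ := hM f g P (rel_of_represents h hP)
    have hmem := hR0 (max R0 (r + 1)) (le_max_left _ _)
    have hBl := Bl_mem Θ f g r
    apply mem_comm_of_phi
    · exact kap_L hBl (by omega)
    · intro n w hw
      by_cases hn : (f.length - 1) + ((g.length - 1) + r) = n + 1
      · have h1 := phi_comm (n := n + 1) w hmem
        have h2 : (tr N (n + 1) P).totalDegree ≤ f.length + g.length + d := by
          rw [← hP (n + 1) (Nat.succ_pos n)]
          exact hd (n + 1) (Nat.succ_pos n) f g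
        rw [map_sub, phi_eq_zero_of_totalDegree w hw h2 (by omega), zero_sub, neg_eq_zero, PSum,
          map_sum, Finset.sum_eq_single r] at h1
        · exact h1
        · intro r' _ hr'
          exact phi_L_ne w hw (Bl_mem Θ f g r') (by omega)
        · intro h2
          exact absurd (Finset.mem_range.2 (by omega)) h2
      · exact phi_L_ne w hw hBl hn
  · rintro ⟨Θ', hΘ', hrep⟩
    choose d hd using fun i j => exists_degree_of_mem (hΘ' i j)
    refine ⟨Finset.univ.sup fun i => Finset.univ.sup fun j => d i j, fun m hm w₁ w₂ => ?_⟩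
    obtain ⟨P, hP⟩ := h.trace (wd w₁) (wd w₂)
    have h1 := hrep (wd w₁) (wd w₂) P (cg w₁) (cg w₂) (isGrad_cg w₁) (isGrad_cg w₂) hP
    have h2 := tr_comm (m := m) h1
    rw [tr_sub, sub_eq_zero] at h2
    rw [hP m hm, h2]
    apply totalDegree_tr_of_degLE
    apply Submodule.sum_mem
    intro i _
    apply Submodule.sum_mem
    intro j _
    have h2 := L_le_degLE _ (cg_mem_L w₁ i)
    have h3 := hd i j _ _ (L_le_degLE _ (cg_mem_L w₂ j))
    refine degLE_mono ?_ (mul_mem_degLE h2 h3)
    have h4 : d i j ≤ Finset.univ.sup fun i => Finset.univ.sup fun j => d i j :=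
      (Finset.le_sup (f := fun j => d i j) (Finset.mem_univ j)).trans
        (Finset.le_sup (f := fun i => Finset.univ.sup fun j => d i j) (Finset.mem_univ i))
    omega

/-- bounded structure polynomials imply the degree bound on traces. -/
lemma bound_of_totalDegree {br : ∀ m : ℕ, PR N m →ₗ[ℂ] PR N m →ₗ[ℂ] PR N m}
    (h : IsTraceFamily N br) {d : ℕ}
    (hd : ∀ m, 0 < m → ∀ p q, (br m (X p) (X q)).totalDegree ≤ d) (m : ℕ) (hm : 0 < m)
    (w₁ w₂ : List (Fin N)) :
    (br m (tr N m (wd w₁)) (tr N m (wd w₂))).totalDegree ≤ w₁.length + w₂.length + d := by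
  rw [br_eq_brT h hm, brT]
  refine (totalDegree_finsetSum _ _).trans (Finset.sup_le fun p _ => ?_)
  refine (totalDegree_finsetSum _ _).trans (Finset.sup_le fun q _ => ?_)
  refine (totalDegree_mul _ _).trans ?_
  have h1 : (pderiv p (tr N m (wd w₁))).totalDegree ≤ w₁.length := by
    obtain ⟨i, a, b⟩ := p
    have : pderiv (i, a, b) (tr N m (wd w₁)) = ev N m (cg w₁ i) b a := pderiv_tr_word i a b w₁
    rw [this, cg, map_sum, Matrix.sum_apply]
    refine (totalDegree_finsetSum _ _).trans (Finset.sup_le fun s hs => ?_)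
    split_ifs
    · refine (totalDegree_ev_wd m _ b a).trans ?_
      rw [List.length_append, List.length_drop, List.length_take]
      have := Finset.mem_range.1 hs
      omega
    · rw [map_zero, Matrix.zero_apply, totalDegree_zero]; exact Nat.zero_le _
  have h2 : (pderiv q (tr N m (wd w₂))).totalDegree ≤ w₂.length := by
    obtain ⟨i, a, b⟩ := q
    have : pderiv (i, a, b) (tr N m (wd w₂)) = ev N m (cg w₂ i) b a := pderiv_tr_word i a b w₂
    rw [this, cg, map_sum, Matrix.sum_apply]
    refine (totalDegree_finsetSum _ _).trans (Finset.sup_le fun s hs => ?_)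
    split_ifs
    · refine (totalDegree_ev_wd m _ b a).trans ?_
      rw [List.length_append, List.length_drop, List.length_take]
      have := Finset.mem_range.1 hs
      omega
    · rw [map_zero, Matrix.zero_apply, totalDegree_zero]; exact Nat.zero_le _
  have h3 : (pderiv q (tr N m (wd w₂)) * tens br m p q).totalDegree ≤ w₂.length + d :=
    (totalDegree_mul _ _).trans (add_le_add h2 (hd m hm p q))
  omega

end Pool.Agent.H70.TP
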