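import Pool.Agent.H70.TP.Cycle

set_option autoImplicit false

open MvPolynomial

namespace Pool.Agent.H70.TP

/-- tensors of polynomial coefficients of a bracket. -/
abbrev Tens (N m : ℕ) : Type :=
  (Fin N × Fin m × Fin m) → (Fin N × Fin m × Fin m) → PR N m

/-- the action of maps of the index set on the variables. -/
def act {N m : ℕ} (σ : Fin m → Fin m) (p : Fin N × Fin m × Fin m) : Fin N × Fin m × Fin m :=
  (p.1, σ p.2.1, σ p.2.2)

/-- invariance under permutation matrices. -/
def PermInv {N m : ℕ} (h : Tens N m) : Prop :=
  ∀ (σ : Equiv.Perm (Fin m)) (p q : Fin N × Fin m × Fin m),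
    h (act σ p) (act σ q) = rename (act σ) (h p q)

/-- the coefficients of the local operators. -/
noncomputable def theta {N m : ℕ} [NeZero m] (h : Tens N m) (i j : Fin N)
    (u v : List (Fin N)) : ℂ :=
  coeff (pathMon (fun t => Fin.ofNat m t) u +
      pathMon (fun t => Fin.ofNat m (u.length + 1 + t)) v)
    (h (i, Fin.ofNat m 0, Fin.ofNat m (u.length + 1 + v.length))
      (j, Fin.ofNat m (u.length + 1), Fin.ofNat m u.length))

lemma act_injective {N m : ℕ} (σ : Equiv.Perm (Fin m)) :
    Function.Injective (act (N := N) σ) := by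
  rintro ⟨a, b, c⟩ ⟨a', b', c'⟩ h
  simp only [act, Prod.mk.injEq, EmbeddingLike.apply_eq_iff_eq] at h
  simp [h.1, h.2.1, h.2.2]

lemma exists_perm {m k : ℕ} [NeZero m] (hk : k ≤ m) (φ : ℕ → Fin m)
    (hφ : ∀ s t, s < t → t < k → φ s ≠ φ t) :
    ∃ σ : Equiv.Perm (Fin m), ∀ t, t < k → σ (Fin.ofNat m t) = φ t := by
  classical
  let f : Fin k → Fin m := fun t => φ t
  let g : Fin k → Fin m := fun t => Fin.ofNat m t
  have hf : Function.Injective f := by
    intro a b hab
    rcases lt_trichotomy a.val b.val with h | h | h
    · exact absurd hab (hφ _ _ h b.2)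
    · exact Fin.ext h
    · exact absurd hab.symm (hφ _ _ h a.2)
  have hg : Function.Injective g := by
    intro a b hab
    have := congrArg Fin.val hab
    simp only [g, Fin.ofNat] at this
    rw [Nat.mod_eq_of_lt (a.2.trans_le hk), Nat.mod_eq_of_lt (b.2.trans_le hk)] at this
    exact Fin.ext this
  let e : {x // x ∈ Set.range g} ≃ {x // x ∈ Set.range f} :=
    (Equiv.ofInjective g hg).symm.trans (Equiv.ofInjective f hf)
  refine ⟨Equiv.extendSubtype e, fun t ht => ?_⟩
  have hmem : Fin.ofNat m t ∈ Set.range g := ⟨⟨t, ht⟩, rfl⟩
  rw [Equiv.extendSubtype_apply_of_mem e _ hmem]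
  have : (Equiv.ofInjective g hg).symm ⟨Fin.ofNat m t, hmem⟩ = ⟨t, ht⟩ := by
    rw [Equiv.symm_apply_eq]; rfl
  simp only [e, Equiv.trans_apply, this]
  rfl

lemma coeff_path {N m : ℕ} [NeZero m] (h : Tens N m) (hinv : PermInv h) (i j : Fin N)
    (u v : List (Fin N)) (hm : u.length + v.length + 2 ≤ m) (φ : ℕ → Fin m)
    (hφ : ∀ s t, s < t → t < u.length + v.length + 2 → φ s ≠ φ t) :
    coeff (pathMon φ u + pathMon (fun t => φ (u.length + 1 + t)) v)
      (h (i, φ 0, φ (u.length + 1 + v.length)) (j, φ (u.length + 1), φ u.length)) =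
      theta h i j u v := by
  obtain ⟨σ, hσ⟩ := exists_perm hm φ hφ
  have h1 : pathMon φ u = (pathMon (fun t => Fin.ofNat m t) u).mapDomain (act (N := N) σ) := by
    rw [show (act (N := N) σ) = fun p : Fin N × Fin m × Fin m => (p.1, σ p.2.1, σ p.2.2) from rfl,
      mapDomain_pathMon]
    exact pathMon_congr _ _ _ (fun t ht => (hσ t (by omega)).symm)
  have h2 : pathMon (fun t => φ (u.length + 1 + t)) v =
      (pathMon (fun t => Fin.ofNat m (u.length + 1 + t)) v).mapDomain (act (N := N) σ) := by
    rw [show (act (N := N) σ) = fun p : Fin N × Fin m × Fin m => (p.1, σ p.2.1, σ p.2.2) from rfl,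
      mapDomain_pathMon]
    exact pathMon_congr _ _ _ (fun t ht => (hσ _ (by omega)).symm)
  have h3 : h (i, φ 0, φ (u.length + 1 + v.length)) (j, φ (u.length + 1), φ u.length) =
      rename (act σ) (h (i, Fin.ofNat m 0, Fin.ofNat m (u.length + 1 + v.length))
      (j, Fin.ofNat m (u.length + 1), Fin.ofNat m u.length)) := by
    rw [← hinv]
    simp only [act]
    rw [hσ 0 (by omega), hσ _ (by omega), hσ _ (by omega), hσ _ (by omega)]
  rw [h1, h2, h3, ← Finsupp.mapDomain_add, coeff_rename_mapDomain _ (act_injective σ), theta]

/-- exact values of the position monomial of a word of length at most `n`. -/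
lemma pth_apply {N : ℕ} (n : ℕ) [NeZero n] (s : ℕ) (Y : List (Fin N)) (hY : Y.length ≤ n)
    (t : ℕ) (ht : t < Y.length) (l : Fin N) :
    pth n s Y (l, Fin.ofNat n (s + t)) = if Y[t] = l then 1 else 0 := by
  induction Y generalizing s t with
  | nil => simp at ht
  | cons x Y ih =>
    rw [pth_cons, Finsupp.add_apply]
    cases t with
    | zero =>
      rw [pth_apply_eq_zero n (s + 1) Y]
      · simp [Finsupp.single_apply]
      · intro t' ht'
        simp at hY
        exact (ofNat_ne (by omega) (by omega)).symm
    | succ t =>
      simp at hY ht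
      rw [show s + (t + 1) = s + 1 + t by ring, ih (s + 1) (by omega) t ht,
        Finsupp.single_apply, if_neg, zero_add]
      · simp
      · intro h
        exact (ofNat_ne (n := n) (a := s) (b := s + 1 + t) (by omega) (by omega))
          (Prod.ext_iff.1 h).2

lemma getElem_of_le {N : ℕ} (n : ℕ) [NeZero n] (s : ℕ) (Y : List (Fin N)) (hY : Y.length ≤ n)
    (κ : Fin N × Fin n →₀ ℕ) (hκ : κ ≤ pth n s Y) (t : ℕ) (ht : t < Y.length) (l : Fin N)
    (hl : 0 < κ (l, Fin.ofNat n (s + t))) : Y[t] = l ∧ κ (l, Fin.ofNat n (s + t)) = 1 := by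
  have h1 := hκ (l, Fin.ofNat n (s + t))
  rw [pth_apply n s Y hY t ht l] at h1
  split_ifs at h1 with h2
  · exact ⟨h2, by omega⟩
  · omega

lemma key_term {N n m : ℕ} [NeZero n] [NeZero m] (hnm : n ≤ m) (h : Tens N m) (hinv : PermInv h)
    (i j : Fin N) (y z Y : List (Fin N)) (hy : y ≠ []) (hz : z ≠ []) (e σ : ℕ)
    (hY : Y.length = n) (hσ : σ < n) :
    coeff (pth n e Y) (monomial (pth n e y) 1 * (monomial (pth n (e + y.length + σ) z) 1 *
      eps N hnm (h (i, cv hnm (e + y.length), cv hnm e)
        (j, cv hnm (e + y.length + σ + z.length), cv hnm (e + y.length + σ))))) =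
    if y.length + σ + z.length ≤ n ∧ Y.take y.length = y ∧
        (Y.drop (y.length + σ)).take z.length = z
    then theta h i j ((Y.drop y.length).take σ) (Y.drop (y.length + σ + z.length)) else 0 := by
  have hy' : 0 < y.length := List.length_pos_iff.2 hy
  have hz' : 0 < z.length := List.length_pos_iff.2 hz
  rw [← mul_assoc, monomial_mul, one_mul, coeff_monomial_mul', one_mul]
  by_cases hle : pth n e y + pth n (e + y.length + σ) z ≤ pth n e Y
  · rw [if_pos hle]
    have hYn : Y.length ≤ n := hY.le
    -- the arcs are disjoint
    have hdeg : y.length + z.length ≤ n := by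
      have := Finsupp.degree_mono hle
      rw [map_add, degree_pth, degree_pth, degree_pth, hY] at this
      exact this
    have hdisj : y.length + σ + z.length ≤ n := by
      by_contra hcon
      push Not at hcon
      -- a common position
      obtain ⟨t, t', ht, ht', htt⟩ : ∃ t t', t < y.length ∧ t' < z.length ∧
          (e + y.length + σ + t' = e + t + n) := by
        rcases le_or_gt σ (n - y.length) with h1 | h1
        · exact ⟨0, n - y.length - σ, hy', by omega, by omega⟩
        · exact ⟨σ + y.length - n, 0, by omega, hz', by omega⟩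
      have h1 := pth_apply_pos n e y t ht
      have h2 := pth_apply_pos n (e + y.length + σ) z t' ht'
      rw [htt, ofNat_add_self] at h2
      have h3 := getElem_of_le n e Y hYn _ hle t (by omega) y[t] (by
        rw [Finsupp.add_apply]; omega)
      have h4 := getElem_of_le n e Y hYn _ hle t (by omega) z[t'] (by
        rw [Finsupp.add_apply]; omega)
      have h5 : y[t] = z[t'] := by rw [← h3.1, h4.1]
      have h6 := h3.2
      rw [Finsupp.add_apply] at h6
      rw [h5] at h1 h6
      omega
    have hY1 : Y.take y.length = y := by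
      apply List.ext_getElem
      · rw [List.length_take]; omega
      · intro t h1 h2
        rw [List.getElem_take]
        exact (getElem_of_le n e Y hYn _ hle t (by omega) y[t] (by
          rw [Finsupp.add_apply]; have := pth_apply_pos n e y t h2; omega)).1
    have hY3 : (Y.drop (y.length + σ)).take z.length = z := by
      apply List.ext_getElem
      · rw [List.length_take, List.length_drop]; omega
      · intro t h1 h2
        rw [List.getElem_take, List.getElem_drop]
        refine (getElem_of_le n e Y hYn _ hle (y.length + σ + t) (by omega) z[t] ?_).1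
        rw [Finsupp.add_apply]
        have := pth_apply_pos n (e + y.length + σ) z t h2
        rw [show e + (y.length + σ + t) = e + y.length + σ + t by ring]
        omega
    rw [if_pos ⟨hdisj, hY1, hY3⟩]
    set Y2 := (Y.drop y.length).take σ with hY2
    set Y4 := Y.drop (y.length + σ + z.length) with hY4
    have hYdec : Y = y ++ (Y2 ++ (z ++ Y4)) := by
      conv_lhs => rw [← List.take_append_drop y.length Y, hY1,
        ← List.take_append_drop σ (Y.drop y.length), List.drop_drop,
        ← List.take_append_drop z.length (Y.drop (y.length + σ)), hY3, List.drop_drop]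
    have hl2 : Y2.length = σ := by
      rw [hY2, List.length_take, List.length_drop]; omega
    have hl4 : Y4.length = n - (y.length + σ + z.length) := by
      rw [hY4, List.length_drop, hY]
    have hsub : pth n e Y - (pth n e y + pth n (e + y.length + σ) z) =
        pth n (e + y.length) Y2 + pth n (e + y.length + σ + z.length) Y4 := by
      conv_lhs => rw [hYdec]
      rw [pth_append, pth_append, pth_append, hl2]
      rw [show pth n e y + (pth n (e + y.length) Y2 + (pth n (e + y.length + σ) z +
        pth n (e + y.length + σ + z.length) Y4)) = (pth n (e + y.length) Y2 +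
        pth n (e + y.length + σ + z.length) Y4) + (pth n e y + pth n (e + y.length + σ) z) by
        abel]
      rw [add_tsub_cancel_right]
    rw [hsub, coeff_eps, Finsupp.mapDomain_add, mapDomain_pth, mapDomain_pth]
    -- the vertex function
    let φ : ℕ → Fin m := fun t => if t ≤ σ then cv hnm (e + y.length + t)
      else cv hnm (e + y.length + z.length - 1 + t)
    have hφinj : ∀ s t, s < t → t < Y2.length + Y4.length + 2 → φ s ≠ φ t := by
      intro s t hst ht
      simp only [φ]
      rw [hl2, hl4] at ht
      split_ifs <;> rw [Ne, cv_eq_iff] <;> first | omega | exact ofNat_ne (by omega) (by omega)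
    have hcp := coeff_path h hinv i j Y2 Y4 (by omega) φ hφinj
    have e0 : φ 0 = cv hnm (e + y.length) := by simp [φ]
    have e1 : φ Y2.length = cv hnm (e + y.length + σ) := by simp [φ, hl2]
    have e2 : φ (Y2.length + 1) = cv hnm (e + y.length + σ + z.length) := by
      simp only [φ, hl2]
      rw [if_neg (by omega)]
      congr 1; omega
    have e3 : φ (Y2.length + 1 + Y4.length) = cv hnm e := by
      simp only [φ, hl2, hl4]
      rw [if_neg (by omega), ← cv_add_self hnm e]
      congr 1; omega
    rw [e0, e1, e2, e3] at hcp
    rw [← hcp]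
    congr 2
    · exact pathMon_congr _ _ _ (fun t ht => by simp only [φ]; rw [if_pos (by omega)])
    · refine pathMon_congr _ _ _ (fun t ht => ?_)
      simp only [φ]
      rw [if_neg (by omega), hl2]
      congr 1; omega
  · rw [if_neg hle, if_neg]
    rintro ⟨h1, h2, h3⟩
    apply hle
    have hYdec : Y = y ++ (((Y.drop y.length).take σ) ++ (z ++ Y.drop (y.length + σ + z.length))) := by
      conv_lhs => rw [← List.take_append_drop y.length Y, h2,
        ← List.take_append_drop σ (Y.drop y.length), List.drop_drop,
        ← List.take_append_drop z.length (Y.drop (y.length + σ)), h3, List.drop_drop]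
    have hl2 : ((Y.drop y.length).take σ).length = σ := by
      rw [List.length_take, List.length_drop]; omega
    conv_rhs => rw [hYdec]
    rw [pth_append, pth_append, pth_append, hl2]
    rw [show pth n e y + (pth n (e + y.length) ((Y.drop y.length).take σ) +
        (pth n (e + y.length + σ) z +
        pth n (e + y.length + σ + z.length) (Y.drop (y.length + σ + z.length)))) =
        (pth n e y + pth n (e + y.length + σ) z) + (pth n (e + y.length) ((Y.drop y.length).take σ) +
        pth n (e + y.length + σ + z.length) (Y.drop (y.length + σ + z.length))) by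
        abel]
    exact le_self_add

end Pool.Agent.H70.TP
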