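import Pool.Agent.H70.TP.Key

set_option autoImplicit false

open MvPolynomial

namespace Pool.Agent.H70.TP

/-- coefficient families of local operators of degree `r`. -/
abbrev V (N r : ℕ) : Type := Fin N → Fin N → (Fin r → Fin N) → Fin (r + 1) → ℂ

/-- the local operator `∑ θ(u,v) L_u R_v`, the sum over the pairs of words with `|u| + |v| = r`. -/
noncomputable def Op {N r : ℕ} (θ : V N r) (i j : Fin N) : Module.End ℂ (FA N) :=
  ∑ zz : Fin r → Fin N, ∑ σ : Fin (r + 1), θ i j zz σ •
    (LinearMap.mulLeft ℂ (wd ((List.ofFn zz).take σ)) ∘ₗ
      LinearMap.mulRight ℂ (wd ((List.ofFn zz).drop σ)))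

lemma Op_apply {N r : ℕ} (θ : V N r) (i j : Fin N) (G : FA N) :
    Op θ i j G = ∑ zz : Fin r → Fin N, ∑ σ : Fin (r + 1), θ i j zz σ •
      (wd ((List.ofFn zz).take σ) * (G * wd ((List.ofFn zz).drop σ))) := by
  simp only [Op, LinearMap.sum_apply, LinearMap.smul_apply, LinearMap.comp_apply,
    LinearMap.mulLeft_apply, LinearMap.mulRight_apply]

/-- the bracket of a local operator. -/
noncomputable def Bl {N r : ℕ} (θ : V N r) (F G : Fin N → FA N) : FA N :=
  ∑ i, ∑ j, F i * Op θ i j (G j)

/-- cyclic gradients of words. -/
noncomputable def cg {N : ℕ} (w : List (Fin N)) (i : Fin N) : FA N :=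
  ∑ s ∈ Finset.range w.length, if w[s]? = some i then wd (w.drop (s + 1) ++ w.take s) else 0

/-- the coefficients of the local operators extracted from a tensor. -/
noncomputable def thetaV {N m : ℕ} [NeZero m] (h : Tens N m) (r : ℕ) : V N r :=
  fun i j zz σ => theta h i j ((List.ofFn zz).take σ) ((List.ofFn zz).drop σ)

/-- sums over a period. -/
lemma sum_period {n : ℕ} (F : ℕ → ℂ) (hF : ∀ e, F (e + n) = F e) (c : ℕ) :
    ∑ e ∈ Finset.range n, F e = ∑ σ ∈ Finset.range n, F (c + σ) := by
  induction c with
  | zero => simp
  | succ c ih =>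
    rw [ih]
    have h1 := Finset.sum_range_succ (fun σ => F (c + σ)) n
    have h2 := Finset.sum_range_succ' (fun σ => F (c + σ)) n
    rw [h1] at h2
    simp only [add_zero] at h2
    rw [show c + n = c + n from rfl, hF c] at h2
    rw [add_left_inj] at h2
    rw [h2]
    apply Finset.sum_congr rfl
    intro σ _
    congr 1; ring

lemma pth_rotate {N n : ℕ} [NeZero n] (w : List (Fin N)) (hw : w.length = n) (e : ℕ) (he : e ≤ n) :
    pth n 0 w = pth n e (w.rotate e) := by
  rw [List.rotate_eq_drop_append_take (by omega), pth_append, List.length_drop, hw,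
    show e + (n - e) = 0 + n by omega, pth_add_self]
  conv_lhs => rw [← List.take_append_drop e w, pth_append, List.length_take, hw,
    Nat.min_eq_left he, zero_add]
  rw [add_comm]

lemma match_iff {N : ℕ} (y z Y L : List (Fin N)) (σ : ℕ) (hσ : σ ≤ L.length)
    (hlen : y.length + z.length + L.length = Y.length) :
    y ++ (L.take σ ++ (z ++ L.drop σ)) = Y ↔
      (y.length + σ + z.length ≤ Y.length ∧ Y.take y.length = y ∧
        (Y.drop (y.length + σ)).take z.length = z) ∧
      L = (Y.drop y.length).take σ ++ Y.drop (y.length + σ + z.length) := by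
  have hA : (L.take σ).length = σ := by rw [List.length_take]; omega
  constructor
  · intro hY
    have h1 : Y.drop y.length = L.take σ ++ (z ++ L.drop σ) := by
      rw [← hY, List.drop_left]
    have h2 : Y.drop (y.length + σ) = z ++ L.drop σ := by
      rw [← List.drop_drop, h1, List.drop_left' hA]
    have h3 : Y.drop (y.length + σ + z.length) = L.drop σ := by
      rw [← List.drop_drop, h2, List.drop_left]
    refine ⟨⟨by omega, ?_, ?_⟩, ?_⟩
    · rw [← hY, List.take_left]
    · rw [h2, List.take_left]
    · rw [h1, h3]
      have : (L.take σ ++ (z ++ L.drop σ)).take σ = L.take σ := List.take_left' hA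
      rw [this, List.take_append_drop]
  · rintro ⟨⟨h0, h1, h2⟩, h3⟩
    have hl : ((Y.drop y.length).take σ).length = σ := by
      rw [List.length_take, List.length_drop]; omega
    have h4 : L.take σ = (Y.drop y.length).take σ := by
      rw [h3, List.take_left' hl]
    have h5 : L.drop σ = Y.drop (y.length + σ + z.length) := by
      rw [h3, List.drop_left' hl]
    rw [h4, h5]
    conv_rhs => rw [← List.take_append_drop y.length Y, h1,
        ← List.take_append_drop σ (Y.drop y.length), List.drop_drop,
        ← List.take_append_drop z.length (Y.drop (y.length + σ)), h2, List.drop_drop]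

/-- the combinatorial comparison for one starting position. -/
lemma sum_match {N n m : ℕ} [NeZero m] (h : Tens N m) (i j : Fin N) (y z Y : List (Fin N))
    (r : ℕ) (hn : y.length + z.length + r = n) (hY : Y.length = n) (hr : r < n) :
    (∑ σ ∈ Finset.range n, if y.length + σ + z.length ≤ n ∧ Y.take y.length = y ∧
        (Y.drop (y.length + σ)).take z.length = z
      then theta h i j ((Y.drop y.length).take σ) (Y.drop (y.length + σ + z.length)) else 0) =
    ∑ zz : Fin r → Fin N, ∑ σ : Fin (r + 1), thetaV h r i j zz σ *
      if y ++ ((List.ofFn zz).take σ ++ (z ++ (List.ofFn zz).drop σ)) = Y then 1 else 0 := by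
  classical
  rw [Finset.sum_comm]
  rw [← Finset.sum_subset (Finset.range_subset_range.2 (show r + 1 ≤ n by omega))]
  · rw [Finset.sum_range]
    apply Finset.sum_congr rfl
    intro σ _
    have hσ : (σ : ℕ) ≤ r := by omega
    by_cases hc : (y.length + (σ : ℕ) + z.length ≤ n ∧ Y.take y.length = y ∧
        (Y.drop (y.length + σ)).take z.length = z)
    · rw [if_pos hc]
      set L := (Y.drop y.length).take σ ++ Y.drop (y.length + σ + z.length) with hL
      have hLlen : L.length = r := by
        rw [hL, List.length_append, List.length_take, List.length_drop, List.length_drop]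
        omega
      have hl : ((Y.drop y.length).take σ).length = σ := by
        rw [List.length_take, List.length_drop]; omega
      let zz0 : Fin r → Fin N := fun t => L[t.val]'(by omega)
      have hzz0 : List.ofFn zz0 = L := by
        apply List.ext_getElem
        · rw [List.length_ofFn, hLlen]
        · intro t h1 h2
          rw [List.getElem_ofFn]
      rw [Finset.sum_eq_single zz0]
      · rw [if_pos]
        · rw [mul_one, thetaV, hzz0, hL]
          congr 1
          · rw [List.take_left' hl]
          · rw [List.drop_left' hl]
        · rw [hzz0, match_iff y z Y L σ (by omega) (by omega)]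
          exact ⟨by rw [hY]; exact hc, hL⟩
      · intro zz _ hzz
        rw [if_neg, mul_zero]
        rw [match_iff y z Y _ σ (by rw [List.length_ofFn]; exact hσ)
          (by rw [List.length_ofFn]; omega)]
        rintro ⟨-, hh⟩
        apply hzz
        apply List.ofFn_injective
        rw [hh, hzz0]
      · simp
    · rw [if_neg hc]
      symm
      apply Finset.sum_eq_zero
      intro zz _
      rw [if_neg, mul_zero]
      rw [match_iff y z Y _ σ (by rw [List.length_ofFn]; exact hσ)
          (by rw [List.length_ofFn]; omega)]
      rintro ⟨hh, -⟩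
      exact hc (by rw [hY] at hh; exact hh)
  · intro σ h1 h2
    rw [if_neg]
    rintro ⟨h3, -, -⟩
    rw [Finset.mem_range] at h1 h2
    omega

end Pool.Agent.H70.TP
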