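import Pool.Agent.H70.TP.CH

set_option autoImplicit false

open MvPolynomial

namespace Pool.Agent.H70.TP

variable {N : ℕ}

/-- partial sums of the local brackets. -/
noncomputable def PSum (Θ : ∀ r, V N r) (R : ℕ) (F G : Fin N → FA N) : FA N :=
  ∑ r ∈ Finset.range R, Bl (Θ r) F G

/-- degreewise form of the statement. -/
def DW (H : ∀ m : ℕ, Tens N m) (Θ : ∀ r, V N r) (f g : List (Fin N)) : Prop :=
  ∀ P, Rel H f g P → kap P = kap (Bl (Θ 0) (cg f) (cg g)) ∧
    ∀ (n : ℕ) (w : List (Fin N)), w.length = n + 1 →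
      phi (n + 1) w P = ∑ r ∈ Finset.range (n + 2), phi (n + 1) w (Bl (Θ r) (cg f) (cg g))

/-- the bracket of two words is eventually given by the partial sums. -/
def Good (H : ∀ m : ℕ, Tens N m) (Θ : ∀ r, V N r) (f g : List (Fin N)) : Prop :=
  ∀ P, Rel H f g P → ∃ R0, ∀ R, R0 ≤ R → P - PSum Θ R (cg f) (cg g) ∈ comm (FA N)

lemma exists_degree_bound (P : FA N) : ∃ D : ℕ, ∀ (n : ℕ) (w : List (Fin N)), D < n + 1 →
    w.length = n + 1 → phi (n + 1) w P = 0 := by
  obtain ⟨s, c, hP⟩ := exists_repr P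
  refine ⟨s.sup List.length, fun n w hn hw => ?_⟩
  rw [hP, map_sum]
  apply Finset.sum_eq_zero
  intro y hy
  rw [map_smul, phi_word_ne w y hw, smul_zero]
  have := Finset.le_sup (f := List.length) hy
  omega

lemma Bl_mem (Θ : ∀ r, V N r) (f g : List (Fin N)) (r : ℕ) :
    Bl (Θ r) (cg f) (cg g) ∈ L N ((f.length - 1) + ((g.length - 1) + r)) :=
  Bl_mem_L (Θ r) (cg_mem_L f) (cg_mem_L g)

lemma good_of_DW {H : ∀ m : ℕ, Tens N m} {Θ : ∀ r, V N r} {f g : List (Fin N)}
    (h : DW H Θ f g) : Good H Θ f g := by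
  intro P hP
  obtain ⟨h0, h1⟩ := h P hP
  obtain ⟨D, hD⟩ := exists_degree_bound P
  refine ⟨D + 1, fun R hR => ?_⟩
  apply mem_comm_of_phi
  · rw [map_sub, PSum, map_sum, Finset.sum_eq_single 0, h0, sub_self]
    · intro r _ hr
      exact kap_L (Bl_mem Θ f g r) (by omega)
    · intro h2
      exact absurd (Finset.mem_range.2 (by omega)) h2
  · intro n w hw
    rw [map_sub, PSum, map_sum]
    have hz : ∀ r, (f.length - 1) + ((g.length - 1) + r) ≠ n + 1 →
        phi (n + 1) w (Bl (Θ r) (cg f) (cg g)) = 0 :=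
      fun r hr => phi_L_ne w hw (Bl_mem Θ f g r) hr
    rcases le_or_gt (n + 2) R with hnR | hnR
    · rw [h1 n w hw, sub_eq_zero]
      apply Finset.sum_subset (Finset.range_subset_range.2 hnR)
      intro r _ hr
      exact hz r (by rw [Finset.mem_range] at hr; omega)
    · have hP0 := hD n w (by omega) hw
      have hsum := h1 n w hw
      rw [hP0] at hsum ⊢
      rw [Finset.sum_eq_zero, sub_zero]
      intro r hr
      by_cases hr' : (f.length - 1) + ((g.length - 1) + r) = n + 1
      · rw [Finset.sum_eq_single r] at hsum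
        · exact hsum.symm
        · intro r' _ hr''
          exact hz r' (by omega)
        · intro h2
          exact absurd (Finset.mem_range.2 (by omega)) h2
      · exact hz r hr'

lemma DW_of_trace {H : ∀ m : ℕ, Tens N m} {Θ : ∀ r, V N r} {f g : List (Fin N)}
    (h : ∀ m, 0 < m → ∃ R1, ∀ R, R1 ≤ R →
      brT (H m) (tr N m (wd f)) (tr N m (wd g)) = tr N m (PSum Θ R (cg f) (cg g))) :
    DW H Θ f g := by
  intro P hP
  constructor
  · obtain ⟨R1, hR1⟩ := h 1 one_pos
    have h2 := hR1 (max R1 1) (le_max_left _ _)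
    rw [hP 1 one_pos] at h2
    have h3 : kap P = kap (PSum Θ (max R1 1) (cg f) (cg g)) := congrArg constantCoeff h2
    rw [h3, PSum, map_sum, Finset.sum_eq_single 0]
    · intro r _ hr
      exact kap_L (Bl_mem Θ f g r) (by omega)
    · intro h2
      exact absurd (Finset.mem_range.2 (by omega)) h2
  · intro n w hw
    obtain ⟨R1, hR1⟩ := h (n + 1) (Nat.succ_pos n)
    have h2 := hR1 (max R1 (n + 2)) (le_max_left _ _)
    rw [hP (n + 1) (Nat.succ_pos n)] at h2
    have h3 : phi (n + 1) w P = phi (n + 1) w (PSum Θ (max R1 (n + 2)) (cg f) (cg g)) :=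
      congrArg (fun q => coeff (pth (n + 1) 0 w) (eps N (le_refl (n + 1)) q)) h2
    rw [h3, PSum, map_sum]
    symm
    apply Finset.sum_subset (Finset.range_subset_range.2 (le_max_right _ _))
    intro r _ hr
    exact phi_L_ne w hw (Bl_mem Θ f g r) (by rw [Finset.mem_range] at hr; omega)

lemma eventually_trace {H : ∀ m : ℕ, Tens N m} (hex : ∀ f g : List (Fin N), ∃ P, Rel H f g P)
    {Θ : ∀ r, V N r} {f g : List (Fin N)} (h : Good H Θ f g) (m : ℕ) (hm : 0 < m) :
    ∃ R1, ∀ R, R1 ≤ R →
      brT (H m) (tr N m (wd f)) (tr N m (wd g)) = tr N m (PSum Θ R (cg f) (cg g)) := by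
  obtain ⟨P, hP⟩ := hex f g
  obtain ⟨R0, hR0⟩ := h P hP
  refine ⟨R0, fun R hR => ?_⟩
  have := tr_comm (m := m) (hR0 R hR)
  rw [tr_sub, sub_eq_zero] at this
  rw [hP m hm, this]

/-- the case of a letter in the first argument. -/
lemma DW_left {H : ∀ m : ℕ, Tens N m} (hex : ∀ f g : List (Fin N), ∃ P, Rel H f g P)
    {Θ : ∀ r, V N r} (i : Fin N) (g : List (Fin N))
    (h : ∀ k, 2 ≤ k → Good H Θ (List.replicate k i) g) : DW H Θ [i] g := by
  apply DW_of_trace
  intro m hm
  choose! R1 hR1 using fun k (hk : 2 ≤ k) => eventually_trace hex (h k hk) m hm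
  refine ⟨(Finset.range (m + 2)).sup R1, fun R hR => ?_⟩
  -- the difference as a matrix
  let Z : Matrix (Fin m) (Fin m) (PR N m) := Matrix.of fun a c =>
    (∑ q, pderiv q (tr N m (wd g)) * H m (i, a, c) q) -
      ∑ r ∈ Finset.range R, ev N m (∑ j, Op (Θ r) i j (cg g j)) a c
  have key : ∀ k, brT (H m) (tr N m (wd (List.replicate k i))) (tr N m (wd g)) -
      tr N m (PSum Θ R (cg (List.replicate k i)) (cg g)) =
      (k : ℂ) • Matrix.trace (gen N m i ^ (k - 1) * Z) := by
    intro k
    rw [← trace_ev_smul_wd_replicate_mul, brT_left, PSum, tr_sum]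
    simp only [tr_Bl_left]
    rw [Finset.sum_eq_single i]
    · rw [Finset.sum_congr rfl (g := fun r => ∑ a, ∑ c, ev N m (cg (List.replicate k i) i) c a *
        ev N m (∑ j, Op (Θ r) i j (cg g j)) a c)]
      · rw [Finset.sum_comm (s := Finset.range R), ← Finset.sum_sub_distrib]
        apply Finset.sum_congr rfl
        intro a _
        rw [Finset.sum_comm (s := Finset.range R), ← Finset.sum_sub_distrib]
        apply Finset.sum_congr rfl
        intro c _
        rw [← Finset.mul_sum, ← mul_sub]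
        rfl
      · intro r _
        rw [Finset.sum_eq_single i]
        · intro i' _ hi'
          simp [cg_replicate, hi']
        · simp
    · intro i' _ hi'
      simp [cg_replicate, hi']
    · simp
  have hZ : Matrix.trace Z = 0 := by
    apply trace_eq_zero_of_pow i
    intro k hk1 hk2
    have h1 := key (k + 1)
    rw [hR1 (k + 1) (by omega) R ((Finset.le_sup (f := R1) (Finset.mem_range.2 (by omega))).trans
      hR), sub_self, Nat.add_sub_cancel] at h1
    rcases smul_eq_zero.1 h1.symm with h2 | h2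
    · exact absurd h2 (by exact_mod_cast Nat.succ_ne_zero k)
    · exact h2
  have h1 := key 1
  rw [pow_zero, one_mul, hZ, smul_zero, sub_eq_zero] at h1
  exact h1

/-- the case of a letter in the second argument. -/
lemma DW_right {H : ∀ m : ℕ, Tens N m} (hex : ∀ f g : List (Fin N), ∃ P, Rel H f g P)
    {Θ : ∀ r, V N r} (j : Fin N) (f : List (Fin N))
    (h : ∀ k, 2 ≤ k → Good H Θ f (List.replicate k j)) : DW H Θ f [j] := by
  apply DW_of_trace
  intro m hm
  choose! R1 hR1 using fun k (hk : 2 ≤ k) => eventually_trace hex (h k hk) m hm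
  refine ⟨(Finset.range (m + 2)).sup R1, fun R hR => ?_⟩
  let Z : Matrix (Fin m) (Fin m) (PR N m) := Matrix.of fun a c =>
    (∑ q, pderiv q (tr N m (wd f)) * H m q (j, a, c)) -
      ∑ r ∈ Finset.range R, ev N m (∑ i, OpT (Θ r) i j (cg f i)) a c
  have key : ∀ k, brT (H m) (tr N m (wd f)) (tr N m (wd (List.replicate k j))) -
      tr N m (PSum Θ R (cg f) (cg (List.replicate k j))) =
      (k : ℂ) • Matrix.trace (gen N m j ^ (k - 1) * Z) := by
    intro k
    rw [← trace_ev_smul_wd_replicate_mul, brT_right, PSum, tr_sum]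
    simp only [tr_Bl_right]
    rw [Finset.sum_eq_single j]
    · rw [Finset.sum_congr rfl (g := fun r => ∑ a, ∑ c, ev N m (cg (List.replicate k j) j) c a *
        ev N m (∑ i, OpT (Θ r) i j (cg f i)) a c)]
      · rw [Finset.sum_comm (s := Finset.range R), ← Finset.sum_sub_distrib]
        apply Finset.sum_congr rfl
        intro a _
        rw [Finset.sum_comm (s := Finset.range R), ← Finset.sum_sub_distrib]
        apply Finset.sum_congr rfl
        intro c _
        rw [← Finset.mul_sum, ← mul_sub]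
        rfl
      · intro r _
        rw [Finset.sum_eq_single j]
        · intro i' _ hi'
          simp [cg_replicate, hi']
        · simp
    · intro i' _ hi'
      simp [cg_replicate, hi']
    · simp
  have hZ : Matrix.trace Z = 0 := by
    apply trace_eq_zero_of_pow j
    intro k hk1 hk2
    have h1 := key (k + 1)
    rw [hR1 (k + 1) (by omega) R ((Finset.le_sup (f := R1) (Finset.mem_range.2 (by omega))).trans
      hR), sub_self, Nat.add_sub_cancel] at h1
    rcases smul_eq_zero.1 h1.symm with h2 | h2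
    · exact absurd h2 (by exact_mod_cast Nat.succ_ne_zero k)
    · exact h2
  have h1 := key 1
  rw [pow_zero, one_mul, hZ, smul_zero, sub_eq_zero] at h1
  exact h1

end Pool.Agent.H70.TP
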