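import Pool.Agent.H70.TP.Sep

set_option autoImplicit false

open MvPolynomial

namespace Pool.Agent.H70.TP

variable {N : ℕ}

lemma contrE_zero_left {n m : ℕ} [NeZero n] (hnm : n ≤ m) (h : Tens N m) (i j : Fin N)
    (G : FA N) : contrE hnm h i j 0 G = 0 := by
  have := contrE_smul_left hnm h i j 0 0 G
  rwa [zero_smul, zero_smul] at this

lemma contrE_zero_right {n m : ℕ} [NeZero n] (hnm : n ≤ m) (h : Tens N m) (i j : Fin N)
    (F : FA N) : contrE hnm h i j F 0 = 0 := by
  have := contrE_smul_right hnm h i j 0 F 0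
  rwa [zero_smul, zero_smul] at this

lemma coeff_contrE {n m : ℕ} [NeZero n] [NeZero m] (hnm : n ≤ m) (h : Tens N m)
    (hinv : PermInv h) (i j : Fin N) (w : List (Fin N)) (hw : w.length = n) (k l r : ℕ)
    (hk : k ≠ 0) (hl : l ≠ 0) (hr : k + l + r = n) {F G : FA N} (hF : F ∈ L N k)
    (hG : G ∈ L N l) :
    coeff (pth n 0 w) (contrE hnm h i j F G) =
      phi n w (F * Op (thetaV h r) i j G) := by
  induction hF using Submodule.span_induction with
  | mem x hx =>
    obtain ⟨y, hy, rfl⟩ := hx
    have hy' : y.length = k := hy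
    induction hG using Submodule.span_induction with
    | mem x hx =>
      obtain ⟨z, hz, rfl⟩ := hx
      have hz' : z.length = l := hz
      have hy0 : y ≠ [] := by rintro rfl; exact hk hy'.symm
      have hz0 : z ≠ [] := by rintro rfl; exact hl hz'.symm
      rw [contrE_word hnm h i j y z hy0 hz0, coeff_contr hnm h hinv i j y z w hy0 hz0 hw r
        (by rw [hy', hz']; exact hr), phi_eq hnm w hw]
    | zero => rw [contrE_zero_right, coeff_zero, map_zero, mul_zero, map_zero]
    | add x y _ _ hx hy => rw [contrE_add_right, coeff_add, hx, hy, map_add, mul_add, map_add]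
    | smul c x _ hx => rw [contrE_smul_right, coeff_smul, hx, map_smul, mul_smul_comm, map_smul]
  | zero => rw [contrE_zero_left, coeff_zero, zero_mul, map_zero]
  | add x y _ _ hx hy => rw [contrE_add_left, coeff_add, hx, hy, add_mul, map_add]
  | smul c x _ hx => rw [contrE_smul_left, coeff_smul, hx, smul_mul_assoc, map_smul]

lemma coeff_contrE_zero {n m : ℕ} [NeZero n] [NeZero m] (hnm : n ≤ m) (h : Tens N m)
    (hinv : PermInv h) (i j : Fin N) (w : List (Fin N)) (hw : w.length = n) (k l : ℕ)
    (hk : k ≠ 0) (hl : l ≠ 0) (hr : n < k + l) {F G : FA N} (hF : F ∈ L N k)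
    (hG : G ∈ L N l) :
    coeff (pth n 0 w) (contrE hnm h i j F G) = 0 := by
  induction hF using Submodule.span_induction with
  | mem x hx =>
    obtain ⟨y, hy, rfl⟩ := hx
    have hy' : y.length = k := hy
    induction hG using Submodule.span_induction with
    | mem x hx =>
      obtain ⟨z, hz, rfl⟩ := hx
      have hz' : z.length = l := hz
      have hy0 : y ≠ [] := by rintro rfl; exact hk hy'.symm
      have hz0 : z ≠ [] := by rintro rfl; exact hl hz'.symm
      rw [contrE_word hnm h i j y z hy0 hz0, coeff_contr_zero hnm h hinv i j y z w hy0 hz0 hw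
        (by rw [hy', hz']; exact hr)]
    | zero => rw [contrE_zero_right, coeff_zero]
    | add x y _ _ hx hy => rw [contrE_add_right, coeff_add, hx, hy, add_zero]
    | smul c x _ hx => rw [contrE_smul_right, coeff_smul, hx, smul_zero]
  | zero => rw [contrE_zero_left, coeff_zero]
  | add x y _ _ hx hy => rw [contrE_add_left, coeff_add, hx, hy, add_zero]
  | smul c x _ hx => rw [contrE_smul_left, coeff_smul, hx, smul_zero]

/-- the connected part of the bracket of two traces is given by the local operators. -/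
lemma propA {n m : ℕ} [NeZero n] [NeZero m] (hnm : n ≤ m) (h : Tens N m) (hinv : PermInv h)
    (f g w : List (Fin N)) (hf : 2 ≤ f.length) (hg : 2 ≤ g.length) (hw : w.length = n) (r : ℕ)
    (hr : (f.length - 1) + (g.length - 1) + r = n) {P : FA N}
    (hP : brT h (tr N m (wd f)) (tr N m (wd g)) = tr N m P) :
    phi n w P = phi n w (Bl (thetaV h r) (cg f) (cg g)) := by
  rw [← phi_eq hnm w hw P, ← hP, eps_brT, coeff_sum, Bl, map_sum]
  apply Finset.sum_congr rfl
  intro i _
  rw [coeff_sum, map_sum]
  apply Finset.sum_congr rfl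
  intro j _
  exact coeff_contrE hnm h hinv i j w hw _ _ r (by omega) (by omega) hr (cg_mem_L f i)
    (cg_mem_L g j)

lemma propA_zero {n m : ℕ} [NeZero n] [NeZero m] (hnm : n ≤ m) (h : Tens N m) (hinv : PermInv h)
    (f g w : List (Fin N)) (hf : 2 ≤ f.length) (hg : 2 ≤ g.length) (hw : w.length = n)
    (hr : n < (f.length - 1) + (g.length - 1)) {P : FA N}
    (hP : brT h (tr N m (wd f)) (tr N m (wd g)) = tr N m P) :
    phi n w P = 0 := by
  rw [← phi_eq hnm w hw P, ← hP, eps_brT, coeff_sum]
  apply Finset.sum_eq_zero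
  intro i _
  rw [coeff_sum]
  apply Finset.sum_eq_zero
  intro j _
  exact coeff_contrE_zero hnm h hinv i j w hw _ _ (by omega) (by omega) hr (cg_mem_L f i)
    (cg_mem_L g j)

lemma constantCoeff_ev_L {m k : ℕ} (hk : k ≠ 0) {F : FA N} (hF : F ∈ L N k) (a b : Fin m) :
    constantCoeff (ev N m F a b) = 0 := by
  induction hF using Submodule.span_induction with
  | mem x hx =>
    obtain ⟨y, hy, rfl⟩ := hx
    cases y with
    | nil => exact absurd hy.symm hk
    | cons x y => exact constantCoeff_ev x y a b
  | zero => rw [map_zero, Matrix.zero_apply, map_zero]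
  | add x y _ _ hx hy => rw [map_add, Matrix.add_apply, map_add, hx, hy, add_zero]
  | smul c x _ hx => rw [map_smul, Matrix.smul_apply, smul_eq_C_mul, map_mul, hx, mul_zero]

lemma kap_of_bracket (h : Tens N 1) (f g : List (Fin N)) (hf : 2 ≤ f.length) {P : FA N}
    (hP : brT h (tr N 1 (wd f)) (tr N 1 (wd g)) = tr N 1 P) : kap P = 0 := by
  change constantCoeff (tr N 1 P) = 0
  rw [← hP, brT, map_sum]
  apply Finset.sum_eq_zero
  rintro ⟨i, a, b⟩ _
  rw [map_sum]
  apply Finset.sum_eq_zero
  intro q _
  rw [map_mul, pderiv_tr_word, constantCoeff_ev_L (by omega) (cg_mem_L f i), zero_mul]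

end Pool.Agent.H70.TP
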