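import Pool.Agent.H70.TP.Deriv

set_option autoImplicit false

open MvPolynomial

namespace Pool.Agent.H70.TP

variable {N : ℕ}

lemma tr_add {m : ℕ} (P Q : FA N) : tr N m (P + Q) = tr N m P + tr N m Q := by
  rw [tr, map_add, Matrix.trace_add]; rfl

lemma tr_sub {m : ℕ} (P Q : FA N) : tr N m (P - Q) = tr N m P - tr N m Q := by
  rw [tr, map_sub, Matrix.trace_sub]; rfl

lemma tr_smul {m : ℕ} (c : ℂ) (P : FA N) : tr N m (c • P) = c • tr N m P := by
  rw [tr, map_smul, Matrix.trace_smul]; rfl

lemma tr_zero {m : ℕ} : tr N m 0 = 0 := by rw [tr, map_zero, Matrix.trace_zero]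

lemma tr_sum {m : ℕ} {ι : Type*} (s : Finset ι) (F : ι → FA N) :
    tr N m (∑ x ∈ s, F x) = ∑ x ∈ s, tr N m (F x) := by
  rw [tr, map_sum, Matrix.trace_sum]; rfl

lemma tr_mul_comm {m : ℕ} (P Q : FA N) : tr N m (P * Q) = tr N m (Q * P) := by
  rw [tr, map_mul, Matrix.trace_mul_comm, ← map_mul]; rfl

lemma tr_comm {m : ℕ} {Q : FA N} (hQ : Q ∈ comm (FA N)) : tr N m Q = 0 := by
  induction hQ using Submodule.span_induction with
  | mem x hx =>
    obtain ⟨a, b, rfl⟩ := hx
    rw [tr_sub, tr_mul_comm, sub_self]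
  | zero => exact tr_zero
  | add x y _ _ hx hy => rw [tr_add, hx, hy, add_zero]
  | smul c x _ hx => rw [tr_smul, hx, smul_zero]

/-- the detecting functionals. -/
noncomputable def phi (n : ℕ) [NeZero n] (w : List (Fin N)) : FA N →ₗ[ℂ] ℂ where
  toFun Q := coeff (pth n 0 w) (eps N (le_refl n) (tr N n Q))
  map_add' P Q := by rw [tr_add, map_add, coeff_add]
  map_smul' c Q := by rw [tr_smul, map_smul, coeff_smul]; rfl

lemma phi_word {n : ℕ} [NeZero n] (w y : List (Fin N)) (hw : w.length = n) (hy : y.length = n) :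
    phi n w (wd y) = ∑ e ∈ Finset.range n, if y = w.rotate e then 1 else 0 :=
  coeff_eps_tr_word (le_refl n) y w hy hw

lemma phi_word_ne {n : ℕ} [NeZero n] (w y : List (Fin N)) (hw : w.length = n)
    (hy : y.length ≠ n) : phi n w (wd y) = 0 :=
  coeff_eps_tr_word_ne (le_refl n) y w hy hw

lemma phi_eq {n m : ℕ} [NeZero n] (hnm : n ≤ m) (w : List (Fin N)) (hw : w.length = n)
    (Q : FA N) : coeff (pth n 0 w) (eps N hnm (tr N m Q)) = phi n w Q := by
  refine word_induction (p := fun Q => coeff (pth n 0 w) (eps N hnm (tr N m Q)) = phi n w Q)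
    ?_ ?_ ?_ ?_ Q
  · intro y
    by_cases hy : y.length = n
    · rw [phi_word w y hw hy, coeff_eps_tr_word hnm y w hy hw]
    · rw [phi_word_ne w y hw hy, coeff_eps_tr_word_ne hnm y w hy hw]
  · rw [tr_zero, map_zero, map_zero, coeff_zero]
  · intro a b ha hb
    rw [tr_add, map_add, coeff_add, ha, hb, map_add]
  · intro c a ha
    rw [tr_smul, map_smul, coeff_smul, ha, map_smul]

lemma phi_comm {n : ℕ} [NeZero n] (w : List (Fin N)) {Q : FA N} (hQ : Q ∈ comm (FA N)) :
    phi n w Q = 0 := by
  change coeff (pth n 0 w) (eps N (le_refl n) (tr N n Q)) = 0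
  rw [tr_comm hQ, map_zero, coeff_zero]

lemma phi_L_ne {n k : ℕ} [NeZero n] (w : List (Fin N)) (hw : w.length = n) {Q : FA N}
    (hQ : Q ∈ L N k) (hk : k ≠ n) : phi n w Q = 0 := by
  induction hQ using Submodule.span_induction with
  | mem x hx =>
    obtain ⟨y, hy, rfl⟩ := hx
    exact phi_word_ne w y hw (by rw [hy]; exact hk)
  | zero => exact map_zero _
  | add x y _ _ hx hy => rw [map_add, hx, hy, add_zero]
  | smul c x _ hx => rw [map_smul, hx, smul_zero]

/-- the constant coefficient. -/
noncomputable def kap : FA N →ₗ[ℂ] ℂ where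
  toFun Q := constantCoeff (tr N 1 Q)
  map_add' P Q := by rw [tr_add, map_add]
  map_smul' c Q := by rw [tr_smul, smul_eq_C_mul, map_mul, constantCoeff_C]; rfl

lemma constantCoeff_ev {m : ℕ} (x : Fin N) (y : List (Fin N)) (a b : Fin m) :
    constantCoeff (ev N m (wd (x :: y)) a b) = 0 := by
  rw [ev_wd_cons, Matrix.mul_apply, map_sum]
  apply Finset.sum_eq_zero
  intro c _
  rw [map_mul, gen, Matrix.of_apply, constantCoeff_X, zero_mul]

lemma kap_nil : kap (N := N) (wd []) = 1 := by
  change constantCoeff (tr N 1 (wd [])) = 1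
  rw [tr, ev_wd_nil, Matrix.trace_one]
  simp

lemma kap_cons (x : Fin N) (y : List (Fin N)) : kap (wd (x :: y)) = 0 := by
  change constantCoeff (tr N 1 (wd (x :: y))) = 0
  rw [tr, Matrix.trace, map_sum]
  exact Finset.sum_eq_zero fun a _ => constantCoeff_ev x y a a

lemma kap_comm {Q : FA N} (hQ : Q ∈ comm (FA N)) : kap Q = 0 := by
  change constantCoeff (tr N 1 Q) = 0
  rw [tr_comm hQ, map_zero]

lemma kap_L {k : ℕ} {Q : FA N} (hQ : Q ∈ L N k) (hk : k ≠ 0) : kap Q = 0 := by
  induction hQ using Submodule.span_induction with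
  | mem x hx =>
    obtain ⟨y, hy, rfl⟩ := hx
    cases y with
    | nil => exact absurd hy.symm hk
    | cons x y => exact kap_cons x y
  | zero => exact map_zero _
  | add x y _ _ hx hy => rw [map_add, hx, hy, add_zero]
  | smul c x _ hx => rw [map_smul, hx, smul_zero]

lemma mkQ_rotate (w : List (Fin N)) (e : ℕ) (he : e ≤ w.length) :
    (comm (FA N)).mkQ (wd (w.rotate e)) = (comm (FA N)).mkQ (wd w) := by
  rw [List.rotate_eq_drop_append_take he]
  conv_rhs => rw [← List.take_append_drop e w]
  rw [wd_append, wd_append, ← sub_eq_zero, ← map_sub, Submodule.mkQ_apply,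
    Submodule.Quotient.mk_eq_zero]
  exact Submodule.subset_span ⟨_, _, rfl⟩

lemma sum_phi_word {n : ℕ} [NeZero n] (y : List (Fin N)) (hy : y.length = n) :
    ∑ w : Fin n → Fin N, phi n (List.ofFn w) (wd y) • (comm (FA N)).mkQ (wd (List.ofFn w)) =
      (n : ℂ) • (comm (FA N)).mkQ (wd y) := by
  classical
  have h1 : ∀ w : Fin n → Fin N,
      phi n (List.ofFn w) (wd y) • (comm (FA N)).mkQ (wd (List.ofFn w)) =
      ∑ e ∈ Finset.range n, if y = (List.ofFn w).rotate e then (comm (FA N)).mkQ (wd y) else 0 := by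
    intro w
    rw [phi_word _ _ (List.length_ofFn) hy, Finset.sum_smul]
    apply Finset.sum_congr rfl
    intro e he
    split_ifs with h
    · rw [one_smul, h, mkQ_rotate _ _ (by rw [List.length_ofFn]; exact (Finset.mem_range.1 he).le)]
    · rw [zero_smul]
  rw [Finset.sum_congr rfl (fun w _ => h1 w), Finset.sum_comm]
  have h2 : ∀ e ∈ Finset.range n, (∑ w : Fin n → Fin N,
      if y = (List.ofFn w).rotate e then (comm (FA N)).mkQ (wd y) else 0) =
      (comm (FA N)).mkQ (wd y) := by
    intro e he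
    have he' : e ≤ n := (Finset.mem_range.1 he).le
    let w0 : Fin n → Fin N := fun t => (y.rotate (n - e))[t.val]'(by
      rw [List.length_rotate, hy]; exact t.2)
    have hw0 : List.ofFn w0 = y.rotate (n - e) := by
      apply List.ext_getElem
      · rw [List.length_ofFn, List.length_rotate, hy]
      · intro t h1 h2
        rw [List.getElem_ofFn]
    rw [Finset.sum_eq_single w0]
    · rw [if_pos]
      rw [hw0, List.rotate_rotate, show n - e + e = y.length by omega, List.rotate_length]
    · intro w _ hw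
      rw [if_neg]
      intro h
      apply hw
      apply List.ofFn_injective
      rw [hw0, h, List.rotate_rotate, show e + (n - e) = (List.ofFn w).length by
        rw [List.length_ofFn]; omega, List.rotate_length]
    · simp
  rw [Finset.sum_congr rfl h2, Finset.sum_const, Finset.card_range, Nat.cast_smul_eq_nsmul]

/-- an element of the free algebra all of whose cyclic functionals vanish is a sum of
commutators. -/
lemma mem_comm_of_phi (Q : FA N) (h0 : kap Q = 0)
    (h : ∀ (n : ℕ) (w : List (Fin N)), w.length = n + 1 → phi (n + 1) w Q = 0) :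
    Q ∈ comm (FA N) := by
  classical
  obtain ⟨s, c, hQ⟩ := exists_repr Q
  obtain ⟨M, hM⟩ : ∃ M : ℕ, ∀ y ∈ s, y.length ≤ M :=
    ⟨s.sup List.length, fun y hy => Finset.le_sup (f := List.length) hy⟩
  let Ψ : FA N →ₗ[ℂ] (FA N ⧸ comm (FA N)) :=
    ∑ n ∈ Finset.range M, ((n : ℂ) + 1)⁻¹ • ∑ w : Fin (n + 1) → Fin N,
      (phi (n + 1) (List.ofFn w)).smulRight ((comm (FA N)).mkQ (wd (List.ofFn w)))
  have hΨ : ∀ P : FA N, Ψ P = ∑ n ∈ Finset.range M, ((n : ℂ) + 1)⁻¹ •
      ∑ w : Fin (n + 1) → Fin N,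
      phi (n + 1) (List.ofFn w) P • ((comm (FA N)).mkQ (wd (List.ofFn w))) := by
    intro P
    simp only [Ψ, LinearMap.sum_apply, LinearMap.smul_apply, LinearMap.smulRight_apply]
  have hword : ∀ y : List (Fin N), y.length ≤ M →
      (comm (FA N)).mkQ (wd y) = Ψ (wd y) + kap (wd y) • (comm (FA N)).mkQ 1 := by
    intro y hy
    cases y with
    | nil =>
      rw [kap_nil, one_smul, hΨ, Finset.sum_eq_zero, zero_add, wd_nil]
      intro n _
      rw [Finset.sum_eq_zero, smul_zero]
      intro w _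
      rw [phi_word_ne _ _ (List.length_ofFn) (by simp), zero_smul]
    | cons x y =>
      rw [kap_cons, zero_smul, add_zero, hΨ, Finset.sum_eq_single y.length]
      · rw [sum_phi_word (n := y.length + 1) (x :: y) rfl, smul_smul]
        push_cast
        rw [inv_mul_cancel₀, one_smul]
        exact Nat.cast_add_one_ne_zero _
      · intro n _ hn
        rw [Finset.sum_eq_zero, smul_zero]
        intro w _
        rw [phi_word_ne _ _ (List.length_ofFn) (by simpa using Ne.symm hn), zero_smul]
      · intro hn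
        exact absurd (Finset.mem_range.2 (by simpa using hy)) hn
  have hq : (comm (FA N)).mkQ Q = Ψ Q + kap Q • (comm (FA N)).mkQ 1 := by
    rw [hQ, map_sum, map_sum, map_sum, Finset.sum_smul, ← Finset.sum_add_distrib]
    apply Finset.sum_congr rfl
    intro y hy
    rw [map_smul, map_smul, map_smul, hword y (hM y hy), smul_add, smul_assoc]
  rw [h0, zero_smul, add_zero, hΨ] at hq
  rw [← Submodule.Quotient.mk_eq_zero, ← Submodule.mkQ_apply, hq]
  apply Finset.sum_eq_zero
  intro n _
  rw [Finset.sum_eq_zero, smul_zero]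
  intro w _
  rw [h n _ (List.length_ofFn), zero_smul]

end Pool.Agent.H70.TP
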