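import Mathlib

set_option autoImplicit false

open MvPolynomial

namespace Pool.Agent.H70.TP

/-- The free associative algebra `ℂ⟨x_1,…,x_N⟩`. -/
abbrev FA (N : ℕ) : Type := FreeAlgebra ℂ (Fin N)

/-- The polynomial ring in the entries of `N` generic `m × m` matrices; `X (i, a, b)` is the
`(a, b)` entry of the `i`-th generic matrix. -/
abbrev PR (N m : ℕ) : Type := MvPolynomial (Fin N × Fin m × Fin m) ℂ

/-- The `i`-th generic matrix. -/
noncomputable def gen (N m : ℕ) (i : Fin N) : Matrix (Fin m) (Fin m) (PR N m) :=
  Matrix.of fun a b => X (i, a, b)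

/-- Evaluation of noncommutative polynomials at the generic matrices. -/
noncomputable def ev (N m : ℕ) : FA N →ₐ[ℂ] Matrix (Fin m) (Fin m) (PR N m) :=
  FreeAlgebra.lift ℂ (gen N m)

/-- The polynomial function `tr P(x_1,…,x_N)`. -/
noncomputable def tr (N m : ℕ) (P : FA N) : PR N m := Matrix.trace (ev N m P)

/-- The linear span of the commutators of an algebra. -/
def comm (A : Type) [Ring A] [Algebra ℂ A] : Submodule ℂ A :=
  Submodule.span ℂ {z | ∃ a b : A, z = a * b - b * a}

/-- The word as an element of the free algebra. -/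
noncomputable def wd {N : ℕ} (w : List (Fin N)) : FA N := (w.map (FreeAlgebra.ι ℂ)).prod

@[simp] lemma wd_nil {N : ℕ} : wd ([] : List (Fin N)) = 1 := rfl

lemma wd_cons {N : ℕ} (i : Fin N) (w : List (Fin N)) :
    wd (i :: w) = FreeAlgebra.ι ℂ i * wd w := by simp [wd]

lemma wd_append {N : ℕ} (u w : List (Fin N)) : wd (u ++ w) = wd u * wd w := by simp [wd]

lemma wd_singleton {N : ℕ} (i : Fin N) : wd [i] = FreeAlgebra.ι ℂ i := by simp [wd]

lemma mul_mem_span_wd {N : ℕ} {a b : FA N}
    (ha : a ∈ Submodule.span ℂ (Set.range (wd : List (Fin N) → FA N)))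
    (hb : b ∈ Submodule.span ℂ (Set.range (wd : List (Fin N) → FA N))) :
    a * b ∈ Submodule.span ℂ (Set.range (wd : List (Fin N) → FA N)) := by
  induction ha using Submodule.span_induction with
  | mem x hx =>
    obtain ⟨u, rfl⟩ := hx
    induction hb using Submodule.span_induction with
    | mem y hy =>
      obtain ⟨v, rfl⟩ := hy
      rw [← wd_append]
      exact Submodule.subset_span ⟨_, rfl⟩
    | zero => simp
    | add x y _ _ hx hy => rw [mul_add]; exact Submodule.add_mem _ hx hy
    | smul c x _ hx => rw [mul_smul_comm]; exact Submodule.smul_mem _ _ hx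
  | zero => simp
  | add x y _ _ hx hy => rw [add_mul]; exact Submodule.add_mem _ hx hy
  | smul c x _ hx => rw [smul_mul_assoc]; exact Submodule.smul_mem _ _ hx

lemma span_wd (N : ℕ) : Submodule.span ℂ (Set.range (wd : List (Fin N) → FA N)) = ⊤ := by
  rw [eq_top_iff]
  intro P _
  induction P using FreeAlgebra.induction with
  | grade0 r =>
    have : algebraMap ℂ (FA N) r = r • wd [] := by
      rw [wd_nil, Algebra.algebraMap_eq_smul_one]
    rw [this]
    exact Submodule.smul_mem _ _ (Submodule.subset_span ⟨[], rfl⟩)
  | grade1 i =>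
    rw [← wd_singleton]
    exact Submodule.subset_span ⟨[i], rfl⟩
  | mul a b ha hb => exact mul_mem_span_wd (ha trivial) (hb trivial)
  | add a b ha hb => exact Submodule.add_mem _ (ha trivial) (hb trivial)

/-- Induction principle: additive and homogeneous statements can be checked on words. -/
lemma word_induction {N : ℕ} {p : FA N → Prop} (hw : ∀ w, p (wd w)) (h0 : p 0)
    (hadd : ∀ a b, p a → p b → p (a + b)) (hsmul : ∀ (c : ℂ) a, p a → p (c • a)) (P : FA N) :
    p P := by
  have hP : P ∈ Submodule.span ℂ (Set.range (wd : List (Fin N) → FA N)) := by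
    rw [span_wd]; trivial
  induction hP using Submodule.span_induction with
  | mem x hx => obtain ⟨w, rfl⟩ := hx; exact hw w
  | zero => exact h0
  | add x y _ _ hx hy => exact hadd _ _ hx hy
  | smul c x _ hx => exact hsmul _ _ hx

lemma exists_repr {N : ℕ} (P : FA N) : ∃ (s : Finset (List (Fin N))) (c : List (Fin N) → ℂ),
    P = ∑ w ∈ s, c w • wd w := by
  have hP : P ∈ Submodule.span ℂ (Set.range (wd : List (Fin N) → FA N)) := by
    rw [span_wd]; trivial
  obtain ⟨c, hc⟩ := (Finsupp.mem_span_range_iff_exists_finsupp).1 hP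
  exact ⟨c.support, c, by rw [← hc]; rfl⟩

lemma ev_wd_nil (N m : ℕ) : ev N m (wd []) = 1 := by simp [ev]

lemma ev_ι (N m : ℕ) (i : Fin N) : ev N m (FreeAlgebra.ι ℂ i) = gen N m i := by
  simp [ev]

lemma ev_wd_cons (N m : ℕ) (i : Fin N) (w : List (Fin N)) :
    ev N m (wd (i :: w)) = gen N m i * ev N m (wd w) := by
  rw [wd_cons, map_mul, ev_ι]

/-- the position monomial of a word, starting at position `s` of a cycle of length `n`. -/
noncomputable def pth {N : ℕ} (n : ℕ) [NeZero n] : ℕ → List (Fin N) → (Fin N × Fin n →₀ ℕ)
  | _, [] => 0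
  | s, x :: y => Finsupp.single (x, Fin.ofNat n s) 1 + pth n (s + 1) y

section pth
variable {N : ℕ} (n : ℕ) [NeZero n]

@[simp] lemma pth_nil (s : ℕ) : pth (N := N) n s [] = 0 := rfl

lemma pth_cons (s : ℕ) (x : Fin N) (y : List (Fin N)) :
    pth n s (x :: y) = Finsupp.single (x, Fin.ofNat n s) 1 + pth n (s + 1) y := rfl

lemma pth_append (s : ℕ) (y z : List (Fin N)) :
    pth n s (y ++ z) = pth n s y + pth n (s + y.length) z := by
  induction y generalizing s with
  | nil => simp
  | cons x y ih =>
    rw [List.cons_append, pth_cons, ih, pth_cons, List.length_cons,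
      show s + 1 + y.length = s + (y.length + 1) by ring, add_assoc]

lemma ofNat_add_self (s : ℕ) : Fin.ofNat n (s + n) = Fin.ofNat n s := by
  apply Fin.ext; simp [Fin.ofNat]

lemma pth_add_self (s : ℕ) (y : List (Fin N)) : pth n (s + n) y = pth n s y := by
  induction y generalizing s with
  | nil => rfl
  | cons x y ih =>
    rw [pth_cons, pth_cons, ofNat_add_self, show s + n + 1 = (s + 1) + n by omega, ih]

/-- total degree of the position monomial. -/
lemma degree_pth (s : ℕ) (y : List (Fin N)) : (pth n s y).degree = y.length := by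
  induction y generalizing s with
  | nil => simp
  | cons x y ih => rw [pth_cons, map_add, ih, Finsupp.degree_single, List.length_cons]; omega

lemma pth_apply_eq_zero (s : ℕ) (y : List (Fin N)) (l : Fin N) (p : Fin n)
    (h : ∀ t, t < y.length → Fin.ofNat n (s + t) ≠ p) : pth n s y (l, p) = 0 := by
  induction y generalizing s with
  | nil => rfl
  | cons x y ih =>
    rw [pth_cons, Finsupp.add_apply, ih (s + 1) (fun t ht => ?_), Finsupp.single_apply, if_neg]
    · intro hx
      exact h 0 (by simp) (by simpa using (Prod.ext_iff.1 hx).2)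
    · have := h (t + 1) (by simpa using ht)
      rwa [show s + (t + 1) = s + 1 + t by ring] at this

lemma pth_apply_pos (s : ℕ) (y : List (Fin N)) (t : ℕ) (ht : t < y.length) :
    0 < pth n s y (y[t], Fin.ofNat n (s + t)) := by
  induction y generalizing s t with
  | nil => simp at ht
  | cons x y ih =>
    rw [pth_cons, Finsupp.add_apply]
    cases t with
    | zero => simp
    | succ t =>
      have := ih (s + 1) t (by simpa using ht)
      rw [show s + (t + 1) = s + 1 + t by ring]
      simp only [List.getElem_cons_succ]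
      omega

end pth

lemma ofNat_eq_iff {n : ℕ} [NeZero n] (a b : ℕ) :
    Fin.ofNat n a = Fin.ofNat n b ↔ a ≡ b [MOD n] := by
  constructor
  · intro h; exact congrArg Fin.val h
  · intro h; exact Fin.ext h

lemma ofNat_ne {n : ℕ} [NeZero n] {a b : ℕ} (hab : a < b) (hb : b < a + n) :
    Fin.ofNat n a ≠ Fin.ofNat n b := by
  rw [Ne, ofNat_eq_iff]
  intro h
  have := (Nat.modEq_iff_dvd' hab.le).1 h
  have := Nat.le_of_dvd (by omega) this
  omega

/-- On words of length at most `n` the position monomial determines the word. -/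
lemma pth_injective {N : ℕ} (n : ℕ) [NeZero n] (s : ℕ) (y z : List (Fin N))
    (hy : y.length ≤ n) (h : pth n s y = pth n s z) : y = z := by
  induction y generalizing s z with
  | nil =>
    have := congrArg Finsupp.degree h
    rw [degree_pth, degree_pth] at this
    exact (List.length_eq_zero_iff.1 this.symm).symm
  | cons x y ih =>
    have hl := congrArg Finsupp.degree h
    rw [degree_pth, degree_pth] at hl
    cases z with
    | nil => simp at hl
    | cons x' z =>
      have hx : x = x' := by
        by_contra hne
        have h1 := DFunLike.congr_fun h (x, Fin.ofNat n s)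
        rw [pth_cons, pth_cons, Finsupp.add_apply, Finsupp.add_apply] at h1
        rw [pth_apply_eq_zero n (s + 1) z x, pth_apply_eq_zero n (s + 1) y x] at h1
        · simp [Ne.symm hne] at h1
        · intro t ht
          exact (ofNat_ne (by omega) (by simp at hy; omega)).symm
        · intro t ht
          simp at hl hy
          exact (ofNat_ne (by omega) (by omega)).symm
      subst hx
      rw [pth_cons, pth_cons, add_right_inj] at h
      rw [ih (s + 1) z (by simp at hy; omega) h]

end Pool.Agent.H70.TP
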